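import Pool.Agent.Q36.PT.Ma

/-! Equivalences. -/

set_option autoImplicit false
set_option linter.overlappingInstances false
set_option linter.unusedSectionVars false

open Polynomial FF IntermediateField

namespace Q36.PT

open Pool.Agent.W603.LV Pool.Agent.W619.PQ Pool.Agent.W619.PL Pool.Agent.W619.TW
  Pool.Agent.W619.X Pool.Agent.W619.Y

/-- The plurigenus `P_m` is not zero: there is a nonzero `m`-fold pluricanonical form which is
regular along all divisorial places. -/
def PlurigenusPos (k : Type*) (K : Type*) [Field k] [Field K] [Algebra k K] (n m : ℕ) : Prop :=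
  ∃ ω : (Fin n → Derivation k K K) → K, IsPluriForm k K n m ω ∧
    (∀ v : Place k K, IsDivisorial v n → RegularAt v n ω) ∧ ∃ D, ω D ≠ 0

section

variable {k L : Type} [Field k] [CharZero k] [IsAlgClosed k] [Field L] [Algebra k L] {n : ℕ}

theorem pos_of_image {K : Type} [Field K] [Algebra k K] {m : ℕ}
    (h : ImageGe k K n (fun _ => False) m 0) : PlurigenusPos k K n m := by
  obtain ⟨ω, hω, D, hD, -⟩ := h
  obtain ⟨h1, h2, -⟩ := hω 0
  refine ⟨ω 0, h1, fun v hv D hD => ?_, D, hD 0⟩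
  rcases h2 v hv not_false D hD with h3 | ⟨s, hs, hs0, h3⟩
  · exact Or.inl h3
  · right
    rw [Nat.cast_zero, zero_mul] at h3
    exact h3

theorem not_neg_of_pos {K : Type} [Field K] [Algebra k K] {m : ℕ} (hm : 1 ≤ m)
    (h : PlurigenusPos k K n m) : ¬ KodairaNeg k K n := by
  obtain ⟨ω, h1, h2, D, hD⟩ := h
  exact fun h => hD (h m hm ω h1 h2 D)

theorem ess_of_sup (F : Fin n → IntermediateField k L) [hF : ∀ i, IsFF k (F i)]
    (hsup : ⨆ i, F i = ⊤) : Algebra.EssFiniteType k L := by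
  have h1 : Algebra.EssFiniteType k ↥(⨆ i, F i) :=
    essFiniteType_iff.2 (fg_iSup fun j => essFiniteType_iff.1 (IsFF.ess))
  rw [hsup] at h1
  exact (Algebra.EssFiniteType.iff_of_algEquiv (IntermediateField.topEquiv (F := k) (E := L))).1 h1

theorem ess_fixed (hn : Algebra.trdeg k L = n) [Algebra.EssFiniteType k L]
    (G : Subgroup (L ≃ₐ[k] L)) [Finite G] :
    Algebra.EssFiniteType k (fixedField G) ∧ Algebra.trdeg k (fixedField G) = n := by
  have hfinL : FiniteDimensional (fixedField G) L := by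
    have hGal : IsGaloisGroup G (fixedField G) L := isGaloisGroup_fixed G
    exact IsGaloisGroup.finiteDimensional G (fixedField G) L
  have hnK : Algebra.trdeg k (fixedField G) = n := by
    rw [← hn, ← trdeg_add_eq k (fixedField G) (A := L),
      trdeg_eq_zero (R := fixedField G) (A := L), add_zero]
  refine ⟨?_, hnK⟩
  obtain ⟨y, hy⟩ := exists_fin_basis (k := k) n hnK
  have h1 := fin_over_adjoin n (fixedField G) y hy
  set K0 := IntermediateField.adjoin k (Set.range y) with hK0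
  have h2 : Algebra.EssFiniteType k K0 :=
    essFiniteType_iff.2 (IntermediateField.fg_adjoin_of_finite (Set.finite_range y))
  have h3 : Algebra.EssFiniteType K0 (fixedField G) := inferInstance
  exact Algebra.EssFiniteType.comp k K0 (fixedField G)

theorem alg_of_sup (F : Fin n → IntermediateField k L) (hsup : ⨆ i, F i = ⊤) :
    Algebra.IsAlgebraic ↥(⨆ i, F i) L :=
  ⟨fun z => by
    have hz : z ∈ ⨆ i, F i := by rw [hsup]; trivial
    exact isAlgebraic_algebraMap (⟨z, hz⟩ : ↥(⨆ i, F i))⟩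

/-- The `P₁₂` criterion. -/
theorem criterion12 (hn : Algebra.trdeg k L = n)
    (F : Fin n → IntermediateField k L) [hF : ∀ i, IsFF k (F i)]
    (halg : Algebra.IsAlgebraic ↥(⨆ i, F i) L)
    (G : Subgroup (L ≃ₐ[k] L)) [Finite G] (σ : G →* Equiv.Perm (Fin n))
    (hσ : ∀ (g : G) i, ∀ z ∈ F i, (g : L ≃ₐ[k] L) z ∈ F (σ g i))
    (h : MixedNonneg G σ F) :
    ((∀ i, ¬ ∃ t : F i, k⟮t⟯ = ⊤) → ∀ m, 12 ∣ m → PlurigenusPos k (fixedField G) n m) ∧
    (⨆ i, F i = ⊤ → List.TFAE [¬ PlurigenusPos k (fixedField G) n 12,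
      KodairaNeg k (fixedField G) n, IsUniruled k (fixedField G) n,
      ¬ IsPsef k (fixedField G) n (fun _ => False),
      NumNeg k (fixedField G) n (fun _ => False), ∃ i, ∃ t : F i, k⟮t⟯ = ⊤]) := by
  have hn0 : Algebra.trdeg k L = (0 + n : ℕ) := by rw [hn, zero_add]
  have h12 : (∀ i, ¬ ∃ t : F i, k⟮t⟯ = ⊤) → ∀ m, 12 ∣ m →
      PlurigenusPos k (fixedField G) n m := by
    intro hirr m hm
    have h1 := pos_of_image (mixed12 hn0 F halg G σ hσ h hirr m hm)
    rwa [zero_add] at h1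
  refine ⟨h12, fun hsup => ?_⟩
  have hess := ess_of_sup F hsup
  have hessb := ess_bot k L
  obtain ⟨hK1, hK2⟩ := ess_fixed hn G
  have hrat : (∃ i, ∃ t : F i, k⟮t⟯ = ⊤) → ¬ IsPsef k (fixedField G) n (fun _ => False) ∧
      NumNeg k (fixedField G) n (fun _ => False) ∧ IsUniruled k (fixedField G) n := by
    intro hi
    have h1 := rat_mixed 0 n hn0 ⊥ (trdeg_bot k L) F (by rw [bot_sup_eq]; exact hsup) G hi
    rwa [zero_add] at h1
  have hirr12 : ¬ (∃ i, ∃ t : F i, k⟮t⟯ = ⊤) → PlurigenusPos k (fixedField G) n 12 := by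
    intro hi
    exact h12 (fun i h => hi ⟨i, h⟩) 12 (dvd_refl _)
  have heff : PlurigenusPos k (fixedField G) n 12 → IsPsef k (fixedField G) n (fun _ => False) := by
    intro h1
    by_contra h2
    exact not_neg_of_pos (by norm_num) h1 (kodairaNeg_of_not_eff.1 fun h3 => h2 (psef_of_eff h3))
  tfae_have 1 → 6 := by
    intro h1
    by_contra h2
    exact h1 (hirr12 h2)
  tfae_have 6 → 3 := fun h1 => (hrat h1).2.2
  tfae_have 6 → 5 := fun h1 => (hrat h1).2.1
  tfae_have 3 → 4 := fun h1 => (uniruled_neg n hK2 h1).1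
  tfae_have 4 → 2 := fun h1 => kodairaNeg_of_not_eff.1 fun h3 => h1 (psef_of_eff h3)
  tfae_have 2 → 1 := fun h1 h2 => not_neg_of_pos (by norm_num) h2 h1
  tfae_have 5 → 1 := by
    intro h1 h2
    obtain ⟨ω, h3, h4, D, hD⟩ := h2
    obtain ⟨m0, hm0⟩ := h1 {1}
    refine hm0 (12 * m0) (by omega) ?_
    refine ⟨fun _ => fun D => ω D ^ m0, ?_, fun _ => ⟨?_, ?_, ?_⟩⟩
    · refine LinearIndependent.of_subsingleton 0 ?_
      intro h5
      exact pow_ne_zero m0 hD (congrFun h5 D)
    · intro A D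
      change ω _ ^ m0 = _
      rw [h3 A D, mul_pow, ← pow_mul]
    · intro v hv _ D hD
      rcases h4 v hv D hD with h5 | h5
      · change Dom v {1} 1 (ω D ^ m0)
        rw [h5]
        rcases Nat.eq_zero_or_pos m0 with rfl | h6
        · exact Or.inr ⟨1, by simp, one_ne_zero, by rw [pow_zero, v.ord_one]; simp⟩
        · exact Or.inl (zero_pow (by omega))
      · refine Or.inr ⟨1, by simp, one_ne_zero, ?_⟩
        change _ ≤ v.ord (ω D ^ m0)
        rw [v.ord_pow, v.ord_one, mul_zero]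
        positivity
    · intro v _ hv
      exact hv.elim
  tfae_finish

end

end Q36.PT
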