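import Pool.Agent.W619.Y.Main

/-! The point as the base. -/

set_option autoImplicit false
set_option linter.overlappingInstances false
set_option linter.unusedSectionVars false

universe u v

open FF IntermediateField

namespace Q36.PT

open Pool.Agent.W603.LV Pool.Agent.W619.PQ Pool.Agent.W619.PL Pool.Agent.W619.TW
  Pool.Agent.W619.X Pool.Agent.W619.Y

section

variable (k : Type v) (L : Type u) [Field k] [CharZero k] [IsAlgClosed k] [Field L] [Algebra k L]

theorem fin_bot : Module.Finite k (⊥ : IntermediateField k L) := by
  refine Module.Finite.of_surjective (Algebra.linearMap k (⊥ : IntermediateField k L)) fun z => ?_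
  obtain ⟨c, hc⟩ := IntermediateField.mem_bot.1 z.2
  exact ⟨c, Subtype.ext hc⟩

theorem ess_bot : Algebra.EssFiniteType k (⊥ : IntermediateField k L) := by
  have := fin_bot k L
  infer_instance

theorem trdeg_bot : Algebra.trdeg k (⊥ : IntermediateField k L) = ((0 : ℕ) : Cardinal) := by
  have := fin_bot k L
  have h : Algebra.IsAlgebraic k (⊥ : IntermediateField k L) := Algebra.IsAlgebraic.of_finite _ _
  rw [Nat.cast_zero]
  exact trdeg_eq_zero

theorem not_neg_bot : ¬ KodairaNeg k (⊥ : IntermediateField k L) 0 := by
  intro h
  have h1 := h 1 le_rfl (fun _ => 1) (fun A D => by simp) (fun v hv D hD => Or.inr (by rw [v.ord_one]))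
    (fun _ => 0)
  exact one_ne_zero h1

theorem numLe_bot : NumLe k (⊥ : IntermediateField k L) 0 (fun _ => False) 0 := by
  intro S
  refine ⟨1, fun m N hm h => ?_⟩
  obtain ⟨ω, hω, -⟩ := h
  have := fin_bot k L
  let X := Fin 0 → Derivation k (⊥ : IntermediateField k L) (⊥ : IntermediateField k L)
  let φ : (X → (⊥ : IntermediateField k L)) →ₗ[k] (⊥ : IntermediateField k L) :=
    LinearMap.proj (fun i : Fin 0 => i.elim0 : X)
  have hφ : LinearMap.ker φ = ⊥ := by
    rw [LinearMap.ker_eq_bot]
    intro a b hab
    funext D
    have : D = (fun i : Fin 0 => i.elim0 : X) := by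
      funext i
      exact i.elim0
    rw [this]
    exact hab
  have h1 := hω.map' φ hφ
  have h2 := h1.fintype_card_le_finrank
  rw [Fintype.card_fin, IntermediateField.finrank_bot] at h2
  simpa using h2

end

end Q36.PT
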