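import Pool.Agent.Q36.PT.Se
import Pool.Agent.Q36.PT.Pt
import Pool.Agent.W619.Y.LA1

/-! Effective nonvanishing and effective abundance: final forms. -/

set_option autoImplicit false
set_option linter.overlappingInstances false
set_option linter.unusedSectionVars false

open Polynomial FF IntermediateField

namespace Q36.PT

open Pool.Agent.W603.LV Pool.Agent.W619.PQ Pool.Agent.W619.PL Pool.Agent.W619.TW
  Pool.Agent.W619.X Pool.Agent.W619.Y

section

variable {k L : Type} [Field k] [CharZero k] [IsAlgClosed k] [Field L] [Algebra k L] {n : ℕ}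

/-- nonvanishing of the plurigenera of weight divisible by `12`, with boundary -/
theorem log12 (hn : Algebra.trdeg k L = (0 + n : ℕ))
    (F : Fin n → IntermediateField k L) [hF : ∀ i, IsFF k (F i)]
    (halg : Algebra.IsAlgebraic ↥(⨆ i, F i) L)
    (G : Subgroup (L ≃ₐ[k] L)) [Finite G] (σ : G →* Equiv.Perm (Fin n))
    (hσ : ∀ (g : G) i, ∀ z ∈ F i, (g : L ≃ₐ[k] L) z ∈ F (σ g i))
    (B : ∀ i, Set (Place k ↥(F i ⊓ fixedField (stb G σ i)))) (hB : ∀ i, (B i).Finite)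
    (h : LogMixedNonneg G σ F B)
    (hneg : ∀ i, ¬ IsNegative (inf_le_left : F i ⊓ fixedField (stb G σ i) ≤ F i) (B i))
    (m : ℕ) (hm : 12 ∣ m) :
    ImageGe k (fixedField G) (0 + n) (BdQ G σ F B) m 0 := by
  obtain ⟨N, hN, hfree, hc⟩ := h
  obtain ⟨x, c, c', hx, hxt, hxg, hcQ, hc0, hcQ', hc0', hcg, hcg', hg, hg', -⟩ :=
    eqv_fix F G σ hσ (BdQ G σ F B) N m ∅ (fun _ _ h => h.elim) (fun i => by
      obtain ⟨x, b, h2, h3, h4, h5, h6⟩ :=
        dataN n F G σ hσ N hN i (B i) (hB i) (hneg i) (by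
        rcases hc i with h | h | h | h
        · exact Or.inl h
        · exact Or.inr (Or.inl h)
        · exact Or.inr (Or.inr h)
        · exact absurd h (hneg i)) m hm
      have h7 := goodBd_of G σ F B i h6
      exact ⟨x, b, b, h2, h3, h4, h5, h4, h5, h7, h7, fun h => h.elim⟩)
  have h1 := image_ge n F hn halg G σ hσ (BdQ G σ F B) N m hN hfree
    (even_iff_two_dvd.2 (dvd_trans (by norm_num) hm)) ∅ x c c' (fun _ _ h => h.elim) hx hxt hxg
    hcQ hc0 hcQ' hc0' hcg hcg' hg hg' (fun i h => h.elim)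
  rw [Set.ncard_empty] at h1
  exact h1

/-- effective abundance, with boundary -/
theorem log48 (hn : Algebra.trdeg k L = (0 + n : ℕ))
    (F : Fin n → IntermediateField k L) [hF : ∀ i, IsFF k (F i)]
    (halg : Algebra.IsAlgebraic ↥(⨆ i, F i) L)
    (G : Subgroup (L ≃ₐ[k] L)) [Finite G] (σ : G →* Equiv.Perm (Fin n))
    (hσ : ∀ (g : G) i, ∀ z ∈ F i, (g : L ≃ₐ[k] L) z ∈ F (σ g i))
    (B : ∀ i, Set (Place k ↥(F i ⊓ fixedField (stb G σ i)))) (hB : ∀ i, (B i).Finite)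
    (hinv : BdInv G σ F B) (h : LogMixedPos G σ F B)
    (hneg : ∀ i, ¬ IsNegative (inf_le_left : F i ⊓ fixedField (stb G σ i) ≤ F i) (B i))
    (m : ℕ) (hm : (48 ≤ m ∧ 12 ∣ m) ∨
      (m = 42 ∧ ∀ i, ¬ IsFlat (inf_le_left : F i ⊓ fixedField (stb G σ i) ≤ F i) (B i))) :
    ImageGe k (fixedField G) (0 + n) (BdQ G σ F B) m
      {i | ¬ IsFlat (inf_le_left : F i ⊓ fixedField (stb G σ i) ≤ F i) (B i)}.ncard := by
  obtain ⟨N, hN, hfree, hc⟩ := h
  have hflat := flat_inv hσ B hinv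
  obtain ⟨x, c, c', hx, hxt, hxg, hcQ, hc0, hcQ', hc0', hcg, hcg', hg, hg', htr⟩ :=
    eqv_fix F G σ hσ (BdQ G σ F B) N m
      {i | ¬ IsFlat (inf_le_left : F i ⊓ fixedField (stb G σ i) ≤ F i) (B i)}
      (fun g i hi => hflat g i hi) (fun i => by
      obtain ⟨x, b, b', h2, h3, h4, h5, h6, h7, h8, h9⟩ :=
        dataP n F G σ hσ N hN i (B i) (hB i) (hneg i) (by
          rcases hc i with h | h | h | h
          · exact Or.inl h
          · exact Or.inr (Or.inl h)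
          · exact Or.inr (Or.inr h)
          · exact absurd h (hneg i)) m (hm.imp id fun h => ⟨h.1, h.2 i⟩)
      exact ⟨x, b, b', h2, h3, h4, h5, h6, h7,
        goodBd_of G σ F B i fun w => ⟨fun hw => ((h8 w).1 hw).1, (h8 w).2.1⟩,
        goodBd_of G σ F B i fun w => ⟨fun hw => ((h8 w).1 hw).2, (h8 w).2.2⟩, h9⟩)
  refine image_ge n F hn halg G σ hσ (BdQ G σ F B) N m hN hfree ?_ _ x c c'
    (fun g i hi => hflat g i hi) hx hxt hxg hcQ hc0 hcQ' hc0' hcg hcg' hg hg' htr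
  rcases hm with hm | hm
  · exact even_iff_two_dvd.2 (dvd_trans (by norm_num) hm.2)
  · rw [hm.1]
    exact ⟨21, rfl⟩

/-- no boundary -/
theorem bdQ_empty (G : Subgroup (L ≃ₐ[k] L)) (σ : G →* Equiv.Perm (Fin n))
    (F : Fin n → IntermediateField k L) :
    BdQ G σ F (fun _ => ∅) = fun _ => False := by
  funext v
  apply propext
  constructor
  · rintro ⟨w, e, -, i, p, hp, -⟩
    exact hp
  · exact fun h => h.elim

theorem MixedNonneg.log {G : Subgroup (L ≃ₐ[k] L)} {σ : G →* Equiv.Perm (Fin n)}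
    {F : Fin n → IntermediateField k L} (h : MixedNonneg G σ F) :
    LogMixedNonneg G σ F (fun _ => ∅) := by
  obtain ⟨N, hN, hfree, hc⟩ := h
  refine ⟨N, hN, hfree, fun i => ?_⟩
  rcases hc i with (h | h | h) | h | ⟨δ, h, h'⟩ | h
  · exact Or.inl (Or.inl h)
  · exact Or.inl (Or.inr (Or.inl h))
  · exact Or.inl (Or.inr (Or.inr (Or.inl h)))
  · exact Or.inr (Or.inl h)
  · exact Or.inr (Or.inr (Or.inl ⟨δ, h, fun q _ => h' q⟩))
  · exact Or.inr (Or.inr (Or.inr ((isNegative_iff _).2 h)))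

theorem MixedPos.log {G : Subgroup (L ≃ₐ[k] L)} {σ : G →* Equiv.Perm (Fin n)}
    {F : Fin n → IntermediateField k L} (h : MixedPos G σ F) :
    LogMixedPos G σ F (fun _ => ∅) := by
  obtain ⟨N, hN, hfree, hc⟩ := h
  refine ⟨N, hN, hfree, fun i => ?_⟩
  rcases hc i with (h | h | h) | (h | ⟨h, h'⟩) | ⟨δ, h | ⟨h, h''⟩, h'⟩ | h
  · exact Or.inl (Or.inl h)
  · exact Or.inl (Or.inr (Or.inl h))
  · exact Or.inl (Or.inr (Or.inr (Or.inl h)))
  · exact Or.inr (Or.inl (Or.inl h))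
  · exact Or.inr (Or.inl (Or.inr ⟨(isFlat_iff _).2 h, h'⟩))
  · exact Or.inr (Or.inr (Or.inl ⟨δ, Or.inl h, fun q _ => h' q⟩))
  · exact Or.inr (Or.inr (Or.inl ⟨δ, Or.inr ⟨(isFlat_iff _).2 h, h''⟩, fun q _ => h' q⟩))
  · exact Or.inr (Or.inr (Or.inr ((isNegative_iff _).2 h)))

/-- nonvanishing of the plurigenera of weight divisible by `12` -/
theorem mixed12 (hn : Algebra.trdeg k L = (0 + n : ℕ))
    (F : Fin n → IntermediateField k L) [hF : ∀ i, IsFF k (F i)]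
    (halg : Algebra.IsAlgebraic ↥(⨆ i, F i) L)
    (G : Subgroup (L ≃ₐ[k] L)) [Finite G] (σ : G →* Equiv.Perm (Fin n))
    (hσ : ∀ (g : G) i, ∀ z ∈ F i, (g : L ≃ₐ[k] L) z ∈ F (σ g i))
    (h : MixedNonneg G σ F) (hirr : ∀ i, ¬ ∃ t : F i, k⟮t⟯ = ⊤) (m : ℕ) (hm : 12 ∣ m) :
    ImageGe k (fixedField G) (0 + n) (fun _ => False) m 0 := by
  have h1 := log12 hn F halg G σ hσ (fun _ => ∅) (fun _ => Set.finite_empty) (MixedNonneg.log h)
    (fun i => by rw [isNegative_iff]; exact hirr i) m hm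
  rwa [bdQ_empty] at h1

theorem bdInv_empty (G : Subgroup (L ≃ₐ[k] L)) (σ : G →* Equiv.Perm (Fin n))
    (F : Fin n → IntermediateField k L) : BdInv G σ F (fun _ => ∅) :=
  fun _ _ _ _ _ hp => hp.elim

/-- effective abundance -/
theorem mixed48 (hn : Algebra.trdeg k L = (0 + n : ℕ))
    (F : Fin n → IntermediateField k L) [hF : ∀ i, IsFF k (F i)]
    (halg : Algebra.IsAlgebraic ↥(⨆ i, F i) L)
    (G : Subgroup (L ≃ₐ[k] L)) [Finite G] (σ : G →* Equiv.Perm (Fin n))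
    (hσ : ∀ (g : G) i, ∀ z ∈ F i, (g : L ≃ₐ[k] L) z ∈ F (σ g i))
    (h : MixedPos G σ F) (hirr : ∀ i, ¬ ∃ t : F i, k⟮t⟯ = ⊤) (m : ℕ)
    (hm : (48 ≤ m ∧ 12 ∣ m) ∨ (m = 42 ∧ ∀ i, ¬ IsElliptic (F i))) :
    ImageGe k (fixedField G) (0 + n) (fun _ => False) m {i | ¬ IsElliptic (F i)}.ncard := by
  have h1 := log48 hn F halg G σ hσ (fun _ => ∅) (fun _ => Set.finite_empty)
    (bdInv_empty G σ F) (MixedPos.log h) (fun i => by rw [isNegative_iff]; exact hirr i) m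
    (by simpa only [isFlat_iff] using hm)
  rw [bdQ_empty] at h1
  simpa only [isFlat_iff] using h1

end

end Q36.PT
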