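import Pool.Agent.Q36.PT.Fi

/-! `A¹`-uniruled varieties: `K + D` is not pseudo-effective. -/

set_option autoImplicit false
set_option linter.overlappingInstances false
set_option linter.unusedSectionVars false

universe u v

open Polynomial FF IntermediateField

namespace Q36.PT

open Pool.Agent.W603.LV Pool.Agent.W619.PQ Pool.Agent.W619.PL Pool.Agent.W619.TW
  Pool.Agent.W619.X Pool.Agent.W619.Y

section

variable {k : Type v} {K : Type u} [Field k] [Field K] [Algebra k K]

theorem isSec_mono {n : ℕ} {Bd Bd' : Place k K → Prop} (h : ∀ v, Bd v → Bd' v) {S : Finset K}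
    {m j : ℕ} {ω : (Fin n → Derivation k K K) → K} (hω : IsSec k K n Bd S m j ω) :
    IsSec k K n Bd' S m j ω := by
  obtain ⟨h1, h2, h3⟩ := hω
  refine ⟨h1, fun v hv hb D hD => h2 v hv (fun hb' => hb (h v hb')) D hD, fun v hv hb D hD => ?_⟩
  by_cases hb' : Bd v
  · exact h3 v hv hb' D hD
  · refine h2 v hv hb' D fun l f hf => ?_
    by_cases hf0 : f = 0
    · rw [hf0, map_zero]; exact Or.inl rfl
    · have h4 := (hD l f)
      have h5 : D l f = D l f / f * f := by field_simp
      rw [h5]
      have h6 : Ge v 0 (D l f / f) := h4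
      have h7 : Ge v 0 f := hf
      have h8 := h6.mul h7
      rw [zero_add] at h8
      exact h8

theorem psef_mono {n : ℕ} {Bd Bd' : Place k K → Prop} (h : ∀ v, Bd v → Bd' v)
    (hp : IsPsef k K n Bd) : IsPsef k K n Bd' := by
  obtain ⟨S, hS⟩ := hp
  refine ⟨S, fun N => ?_⟩
  obtain ⟨j, hj, ω, hω, hD⟩ := hS N
  exact ⟨j, hj, ω, isSec_mono h hω, hD⟩

theorem numNeg_mono {n : ℕ} {Bd Bd' : Place k K → Prop} (h : ∀ v, Bd v → Bd' v)
    (hp : NumNeg k K n Bd') : NumNeg k K n Bd := by
  intro S
  obtain ⟨m0, hm0⟩ := hp S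
  refine ⟨m0, fun m hm hI => hm0 m hm ?_⟩
  obtain ⟨ω, hω, hs⟩ := hI
  exact ⟨ω, hω, fun l => isSec_mono h (hs l)⟩

end

section

variable {k : Type v} {K : Type u} [Field k] [CharZero k] [IsAlgClosed k] [Field K] [Algebra k K]

/-- `A¹`-uniruled varieties: `K + D` is not pseudo-effective, and `m (K + D) + A` has no sections
for large `m`. -/
theorem a1_neg [Algebra.EssFiniteType k K] (n : ℕ) (hn : Algebra.trdeg k K = n)
    (Bd : Place k K → Prop) (h : IsA1Uniruled k K n Bd) :
    ¬ IsPsef k K n Bd ∧ NumNeg k K n Bd := by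
  classical
  obtain ⟨M, _, _, f, hM, htr, hA⟩ := h
  let _ : Algebra K (RatFunc M) := f.toRingHom.toAlgebra
  have t1 : IsScalarTower k K (RatFunc M) := IsScalarTower.of_algebraMap_eq fun c => by
    change _ = f (algebraMap k K c)
    rw [f.commutes]
  have hFF : IsFF M (RatFunc M) := by
    refine IsFF.of_finite (f := (RatFunc.X : RatFunc M)) RatFunc.transcendental_X ?_
    rw [RatFunc.adjoin_X]
    exact Module.Finite.of_surjective (Algebra.linearMap (⊤ : IntermediateField M (RatFunc M))
      (RatFunc M)) fun z => ⟨⟨z, trivial⟩, rfl⟩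
  have hess0 : Algebra.EssFiniteType M (RatFunc M) := hFF.ess
  have hessR : Algebra.EssFiniteType k (RatFunc M) := Algebra.EssFiniteType.comp k M (RatFunc M)
  have hR : Algebra.trdeg k (RatFunc M) = n := by
    rw [← trdeg_add_eq k M (A := RatFunc M), hFF.trdeg]
    exact htr
  obtain ⟨y, hy⟩ := exists_fin_basis (k := k) n hn
  have hyR : AlgebraicIndependent k (fun i => f (y i)) := hy.1.map' f.injective
  have hyb : IsTranscendenceBasis k (fun i => f (y i)) := by
    refine hyR.isTranscendenceBasis_of_lift_trdeg_le_of_finite ?_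
    rw [hR]
    simp
  have halg : Algebra.IsAlgebraic K (RatFunc M) := by
    have h1 : Algebra.IsAlgebraic (IntermediateField.adjoin k (Set.range fun i => f (y i)))
      (RatFunc M) := hyb.isAlgebraic_field
    refine ⟨fun z => ?_⟩
    have h2 := h1.isAlgebraic z
    have hle : IntermediateField.adjoin k (Set.range fun i => f (y i)) ≤ f.fieldRange := by
      rw [adjoin_le_iff]
      rintro _ ⟨i, rfl⟩
      exact ⟨y i, rfl⟩
    let e : K ≃ₐ[k] f.fieldRange := AlgEquiv.ofInjectiveField f
    let g : IntermediateField.adjoin k (Set.range fun i => f (y i)) →+* K :=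
      (e.symm : f.fieldRange →+* K).comp (inclusion hle).toRingHom
    refine h2.ringHom_of_comp_eq g (RingHom.id _) g.injective ?_
    ext w
    change f (e.symm (inclusion hle w)) = (w : RatFunc M)
    have h3 : e (e.symm (inclusion hle w)) = inclusion hle w := e.apply_symm_apply _
    exact congrArg Subtype.val h3
  have hfd : FiniteDimensional K (RatFunc M) := by
    have h1 : Algebra.EssFiniteType K (RatFunc M) := Algebra.EssFiniteType.of_comp k K (RatFunc M)
    obtain ⟨s, hs⟩ := IntermediateField.fg_top K (RatFunc M)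
    have h2 : FiniteDimensional K (IntermediateField.adjoin K (s : Set (RatFunc M))) :=
      IntermediateField.finiteDimensional_adjoin fun x _ => (halg.isAlgebraic x).isIntegral
    rw [hs] at h2
    exact h2.equiv IntermediateField.topEquiv.toLinearEquiv
  have hT := pTRANS k K (RatFunc M) n hn (fun y hy => fin_over y hy) Bd
  -- the subfields `M'` and `k(X)`
  let φ : M →ₐ[k] RatFunc M := IsScalarTower.toAlgHom k M (RatFunc M)
  let M' : IntermediateField k (RatFunc M) := φ.fieldRange
  have hφM : ∀ z : M, algebraMap M (RatFunc M) z ∈ M' := fun z => ⟨z, rfl⟩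
  let F : IntermediateField k (RatFunc M) := IntermediateField.adjoin k {(RatFunc.X : RatFunc M)}
  have hXt : Transcendental k (RatFunc.X : RatFunc M) := by
    intro h
    exact RatFunc.transcendental_X (K := M) (h.tower_top M)
  have hXF : (RatFunc.X : RatFunc M) ∈ F := IntermediateField.mem_adjoin_simple_self k _
  let X : F := ⟨RatFunc.X, hXF⟩
  have hXt' : Transcendental k X := fun h => hXt (by simpa using h.algebraMap (A := RatFunc M))
  have hFtop : k⟮X⟯ = (⊤ : IntermediateField k F) := by
    apply IntermediateField.map_injective F.val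
    rw [IntermediateField.adjoin_map, Set.image_singleton, ← AlgHom.fieldRange_eq_map,
      IntermediateField.fieldRange_val]
    rfl
  have hFFF : IsFF k F := by
    refine IsFF.of_finite hXt' ?_
    rw [hFtop]
    exact Module.Finite.of_surjective (Algebra.linearMap (⊤ : IntermediateField k F) F)
      fun z => ⟨⟨z, trivial⟩, rfl⟩
  obtain ⟨d, rfl⟩ : ∃ d, n = d + 1 := by
    rcases n with _ | d
    · exfalso
      have h1 : (1 : Cardinal) ≤ Algebra.trdeg k M + 1 := self_le_add_left _ _
      rw [htr] at h1
      norm_num at h1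
    · exact ⟨d, rfl⟩
  have hMd : Algebra.trdeg k M' = d := by
    have h1 : Algebra.trdeg k M = Algebra.trdeg k M' :=
      (AlgEquiv.ofInjectiveField φ : M ≃ₐ[k] φ.fieldRange).trdeg_eq
    rw [← h1]
    have h2 : Algebra.trdeg k M + 1 = (d : Cardinal) + 1 := by rw [htr]; push_cast; rfl
    exact Cardinal.add_one_inj.1 h2
  have hsup : M' ⊔ F = ⊤ := by
    rw [eq_top_iff]
    intro z _
    have h1 : z ∈ IntermediateField.adjoin M {(RatFunc.X : RatFunc M)} := by
      rw [RatFunc.adjoin_X]; trivial
    let E : IntermediateField M (RatFunc M) :=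
      { (M' ⊔ F).toSubfield with
        algebraMap_mem' := fun c => (le_sup_left : M' ≤ M' ⊔ F) (hφM c) }
    have h2 : IntermediateField.adjoin M {(RatFunc.X : RatFunc M)} ≤ E := by
      rw [adjoin_simple_le_iff]
      exact (le_sup_right : F ≤ M' ⊔ F) hXF
    exact h2 h1
  obtain ⟨P, hP, hP2⟩ := pole_unique hFtop
  let BF : Place k F → Prop := fun p => p.ord X < 0
  have hBF : {p | BF p} = {P} := by
    ext p
    constructor
    · intro hp
      exact hP2 p hp
    · rintro rfl
      change p.ord X < 0
      omega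
  obtain ⟨-, -, h3, -⟩ := pONEB k (RatFunc M) M' F d (fun _ => True) BF hMd hR hsup
    (by rw [hBF]; exact Set.finite_singleton _)
  obtain ⟨h4, h5⟩ := h3 (by
    rw [hBF, Set.ncard_singleton, canDeg_rational hFtop]
    norm_num)
  have hle : ∀ w : Place k (RatFunc M), BdUp Bd w → BdTwo M' F (fun _ => True) BF w := by
    rintro w ⟨v, e, hwv, hv⟩
    by_cases htriv : ∃ z : M', w.ord (z : RatFunc M) ≠ 0
    · left
      obtain ⟨e', u, hu⟩ := exists_over (K := M') w htriv
      exact ⟨u, e', hu, trivial⟩
    · right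
      push Not at htriv
      let w' : Place M (RatFunc M) :=
        { ord := w.ord
          ord_zero := w.ord_zero
          ord_mul := w.ord_mul
          ord_add := w.ord_add
          ord_const := fun {c} _ => htriv ⟨_, hφM c⟩
          surj := w.surj }
      have h6 : ¬ w'.Reg RatFunc.X := fun h => hA w' h v e hwv.1 (fun z => hwv.2 z) hv
      have h7 : w.ord (RatFunc.X : RatFunc M) < 0 := by
        by_contra hcon
        push Not at hcon
        exact h6 (Or.inr hcon)
      obtain ⟨e', p, hp⟩ := exists_over (K := F) w ⟨X, by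
        change w.ord (RatFunc.X : RatFunc M) ≠ 0
        omega⟩
      refine ⟨p, e', hp, ?_⟩
      change p.ord X < 0
      have h8 : w.ord (RatFunc.X : RatFunc M) = e' * p.ord X := hp.2 X
      rw [h8] at h7
      have h9 : (0 : ℤ) < e' := by exact_mod_cast hp.1
      by_contra hcon
      push Not at hcon
      have := mul_nonneg h9.le hcon
      omega
  exact ⟨fun h => h4 (psef_mono hle (hT.1 h)), hT.2.1 (numNeg_mono hle h5)⟩

end

end Q36.PT
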