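import Mathlib

/-! Arithmetic of orbifold signatures: round-down inequalities for the weights 12, 42 and 48. -/

set_option autoImplicit false

namespace Q36.PT

/-- the weight of a point: `1` on the boundary, `1 - 1 / e` elsewhere -/
noncomputable def wq (b : Prop) [Decidable b] (e : ℕ) : ℚ := if b then 1 else 1 - 1 / (e : ℚ)

/-- the rounded weight: `m` on the boundary, `m - ⌈m / e⌉` elsewhere -/
def tq (m : ℕ) (b : Prop) [Decidable b] (e : ℕ) : ℤ :=
  if b then (m : ℤ) else (m : ℤ) - (((m + e - 1) / e : ℕ) : ℤ)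

section

variable (b : Prop) [Decidable b] (e : ℕ)

theorem ceil_mono {m d e : ℕ} (hd : 1 ≤ d) (h : d ≤ e) : (m + e - 1) / e ≤ (m + d - 1) / d := by
  rcases Nat.eq_zero_or_pos m with rfl | hm
  · have h1 : (0 + e - 1) / e = 0 := Nat.div_eq_of_lt (by omega)
    rw [h1]
    exact Nat.zero_le _
  · have h2 : ∀ a, 1 ≤ a → (m + a - 1) / a = (m - 1) / a + 1 := by
      intro a ha
      have : m + a - 1 = (m - 1) + a := by omega
      rw [this, Nat.add_div_right _ (by omega)]
    rw [h2 e (by omega), h2 d hd]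
    exact Nat.add_le_add_right (Nat.div_le_div_left h (by omega)) 1

theorem ceil_ge {m : ℕ} (he : 1 ≤ e) : (m : ℚ) * (1 / e) ≤ (((m + e - 1) / e : ℕ) : ℚ) := by
  have he0 : (0 : ℚ) < e := by exact_mod_cast he
  rw [mul_one_div, div_le_iff₀ he0]
  have h1 : m ≤ (m + e - 1) / e * e := by
    have h2 := Nat.div_add_mod (m + e - 1) e
    have h3 := Nat.mod_lt (m + e - 1) (by omega : 0 < e)
    rw [mul_comm] at h2
    omega
  exact_mod_cast h1

theorem ceil_le_of {m : ℕ} (he : 1 ≤ e) {z : ℤ} (h : (((m + e - 1) / e : ℕ) : ℤ) ≤ z) :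
    (m : ℚ) * (1 / e) ≤ (z : ℚ) := by
  have h1 : (((((m + e - 1) / e : ℕ) : ℤ)) : ℚ) ≤ (z : ℚ) := Int.cast_le.2 h
  rw [Int.cast_natCast] at h1
  exact (ceil_ge e he).trans h1

theorem tq_le (m : ℕ) : tq m b e ≤ m := by
  unfold tq
  split_ifs
  · exact le_rfl
  · have : (0 : ℤ) ≤ (((m + e - 1) / e : ℕ) : ℤ) := by positivity
    omega

theorem tq_nonneg (m : ℕ) (he : 1 ≤ e) : 0 ≤ tq m b e := by
  unfold tq
  split_ifs
  · positivity
  · have h1 := ceil_mono (m := m) le_rfl he
    rw [Nat.div_one, Nat.add_sub_cancel] at h1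
    have h2 : (((m + e - 1) / e : ℕ) : ℤ) ≤ m := by exact_mod_cast h1
    omega

theorem wq_le (he : 1 ≤ e) : wq b e ≤ 1 := by
  unfold wq
  have : (0 : ℚ) < 1 / e := by
    have : (0 : ℚ) < e := by exact_mod_cast he
    positivity
  split_ifs <;> linarith

/-- types of the points for the weight `12` -/
theorem type12 (he : 1 ≤ e) (h : b ∨ 2 ≤ e) :
    (wq b e = 1 / 2 ∧ (tq 12 b e : ℚ) = 6) ∨ (wq b e = 2 / 3 ∧ (tq 12 b e : ℚ) = 8) ∨
    (wq b e ≤ 4 / 5 ∧ (9 : ℚ) ≤ tq 12 b e) ∨ (wq b e < 1 ∧ (10 : ℚ) ≤ tq 12 b e) ∨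
    (wq b e = 1 ∧ (12 : ℚ) ≤ tq 12 b e) := by
  by_cases hb : b
  · right; right; right; right
    simp [wq, tq, hb]
  have he2 : 2 ≤ e := h.resolve_left hb
  have hw : wq b e = 1 - 1 / (e : ℚ) := by simp [wq, hb]
  have ht : ∀ m, tq m b e = (m : ℤ) - (((m + e - 1) / e : ℕ) : ℤ) := by
    intro m; simp [tq, hb]
  rcases Nat.lt_or_ge e 6 with h6 | h6
  · interval_cases e
    · left; rw [hw, ht]; norm_num
    · right; left; rw [hw, ht]; norm_num
    · right; right; left; rw [hw, ht]; norm_num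
    · right; right; left; rw [hw, ht]; norm_num
  · right; right; right; left
    have h1 := ceil_mono (m := 12) (by norm_num : 1 ≤ 6) h6
    have h0 : (0 : ℚ) < 1 / e := by
      have : (0 : ℚ) < e := by exact_mod_cast (by omega : 0 < e)
      positivity
    rw [hw, ht]
    refine ⟨by linarith, ?_⟩
    have h2 : (((12 + e - 1) / e : ℕ) : ℤ) ≤ 2 := by exact_mod_cast h1
    have h3 : (10 : ℤ) ≤ (12 : ℕ) - (((12 + e - 1) / e : ℕ) : ℤ) := by push_cast at h2 ⊢; omega
    exact_mod_cast h3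

/-- types of the points for the weight `48` -/
theorem type48 (he : 1 ≤ e) (h : b ∨ 2 ≤ e) :
    (wq b e = 1 / 2 ∧ (tq 48 b e : ℚ) = 24) ∨ (wq b e = 2 / 3 ∧ (tq 48 b e : ℚ) = 32) ∨
    (wq b e = 3 / 4 ∧ (36 : ℚ) ≤ tq 48 b e) ∨ (wq b e ≤ 5 / 6 ∧ (38 : ℚ) ≤ tq 48 b e) ∨
    (wq b e ≤ 1 ∧ (41 : ℚ) ≤ tq 48 b e) := by
  by_cases hb : b
  · right; right; right; right
    simp only [wq, tq, hb, if_true]
    norm_num
  have he2 : 2 ≤ e := h.resolve_left hb
  have hw : wq b e = 1 - 1 / (e : ℚ) := by simp [wq, hb]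
  have ht : ∀ m, tq m b e = (m : ℤ) - (((m + e - 1) / e : ℕ) : ℤ) := by
    intro m; simp [tq, hb]
  rcases Nat.lt_or_ge e 7 with h6 | h6
  · interval_cases e
    · left; rw [hw, ht]; norm_num
    · right; left; rw [hw, ht]; norm_num
    · right; right; left; rw [hw, ht]; norm_num
    · right; right; right; left; rw [hw, ht]; norm_num
    · right; right; right; left; rw [hw, ht]; norm_num
  · right; right; right; right
    have h1 := ceil_mono (m := 48) (by norm_num : 1 ≤ 7) h6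
    have h0 : (0 : ℚ) < 1 / e := by
      have : (0 : ℚ) < e := by exact_mod_cast (by omega : 0 < e)
      positivity
    rw [hw, ht]
    refine ⟨by linarith, ?_⟩
    have h2 : (((48 + e - 1) / e : ℕ) : ℤ) ≤ 7 := by exact_mod_cast h1
    have h3 : (41 : ℤ) ≤ (48 : ℕ) - (((48 + e - 1) / e : ℕ) : ℤ) := by push_cast at h2 ⊢; omega
    exact_mod_cast h3

/-- types of the points for the weight `42` -/
theorem type42 (he : 1 ≤ e) (h : b ∨ 2 ≤ e) :
    (wq b e = 1 / 2 ∧ (tq 42 b e : ℚ) = 21) ∨ (wq b e = 2 / 3 ∧ (tq 42 b e : ℚ) = 28) ∨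
    (wq b e = 3 / 4 ∧ (31 : ℚ) ≤ tq 42 b e) ∨ (wq b e ≤ 5 / 6 ∧ (33 : ℚ) ≤ tq 42 b e) ∨
    (wq b e ≤ 1 ∧ (36 : ℚ) ≤ tq 42 b e) := by
  by_cases hb : b
  · right; right; right; right
    simp only [wq, tq, hb, if_true]
    norm_num
  have he2 : 2 ≤ e := h.resolve_left hb
  have hw : wq b e = 1 - 1 / (e : ℚ) := by simp [wq, hb]
  have ht : ∀ m, tq m b e = (m : ℤ) - (((m + e - 1) / e : ℕ) : ℤ) := by
    intro m; simp [tq, hb]
  rcases Nat.lt_or_ge e 7 with h6 | h6
  · interval_cases e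
    · left; rw [hw, ht]; norm_num
    · right; left; rw [hw, ht]; norm_num
    · right; right; left; rw [hw, ht]; norm_num
    · right; right; right; left; rw [hw, ht]; norm_num
    · right; right; right; left; rw [hw, ht]; norm_num
  · right; right; right; right
    have h1 := ceil_mono (m := 42) (by norm_num : 1 ≤ 7) h6
    have h0 : (0 : ℚ) < 1 / e := by
      have : (0 : ℚ) < e := by exact_mod_cast (by omega : 0 < e)
      positivity
    rw [hw, ht]
    refine ⟨by linarith, ?_⟩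
    have h2 : (((42 + e - 1) / e : ℕ) : ℤ) ≤ 6 := by exact_mod_cast h1
    have h3 : (36 : ℤ) ≤ (42 : ℕ) - (((42 + e - 1) / e : ℕ) : ℤ) := by push_cast at h2 ⊢; omega
    exact_mod_cast h3

end

open scoped Classical in
/-- the points which are neither in the boundary nor branch points do not count -/
theorem sum_rel {ι : Type*} (S : Finset ι) (B : ι → Prop) (e : ι → ℕ) (he : ∀ q, 1 ≤ e q) (m : ℕ) :
    (∑ q ∈ S.filter (fun q => B q ∨ 2 ≤ e q), wq (B q) (e q) = ∑ q ∈ S, wq (B q) (e q)) ∧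
    ∑ q ∈ S.filter (fun q => B q ∨ 2 ≤ e q), tq m (B q) (e q) = ∑ q ∈ S, tq m (B q) (e q) := by
  have h1 : ∀ q, ¬ (B q ∨ 2 ≤ e q) → ¬ B q ∧ e q = 1 := by
    intro q hq
    push Not at hq
    have := he q
    exact ⟨hq.1, by omega⟩
  constructor
  · refine Finset.sum_filter_of_ne fun q _ hne => ?_
    by_contra hcon
    obtain ⟨h2, h3⟩ := h1 q hcon
    apply hne
    simp [wq, h2, h3]
  · refine Finset.sum_filter_of_ne fun q _ hne => ?_
    by_contra hcon
    obtain ⟨h2, h3⟩ := h1 q hcon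
    apply hne
    simp [tq, h2, h3]

open scoped Classical in
/-- **Weight 12.** -/
theorem round12 {ι : Type*} (S : Finset ι) (B : ι → Prop) (e : ι → ℕ) (he : ∀ q, 1 ≤ e q)
    (h : (2 : ℚ) ≤ ∑ q ∈ S, wq (B q) (e q)) : (24 : ℤ) ≤ ∑ q ∈ S, tq 12 (B q) (e q) := by
  obtain ⟨h1, h2⟩ := sum_rel S B e he 12
  rw [← h1] at h
  rw [← h2]
  set R := S.filter (fun q => B q ∨ 2 ≤ e q) with hR
  have hty := fun q (hq : q ∈ R) => type12 (B q) (e q) (he q) (Finset.mem_filter.1 hq).2
  have ht6 : ∀ q ∈ R, (6 : ℤ) ≤ tq 12 (B q) (e q) := by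
    intro q hq
    have : (6 : ℚ) ≤ tq 12 (B q) (e q) := by
      rcases hty q hq with h | h | h | h | h <;> linarith [h.2]
    exact_mod_cast this
  have hw1 : ∀ q ∈ R, wq (B q) (e q) ≤ 1 := fun q _ => wq_le _ _ (he q)
  have goal : (24 : ℚ) ≤ ∑ q ∈ R, (tq 12 (B q) (e q) : ℚ) → (24 : ℤ) ≤ ∑ q ∈ R, tq 12 (B q) (e q) := by
    intro h
    exact_mod_cast h
  rcases Nat.lt_or_ge R.card 4 with hc | hc
  · have hcases : R.card = 0 ∨ R.card = 1 ∨ R.card = 2 ∨ R.card = 3 := by omega
    apply goal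
    rcases hcases with hc | hc | hc | hc
    · rw [Finset.card_eq_zero] at hc
      rw [hc] at h
      norm_num at h
    · obtain ⟨a, ha⟩ := Finset.card_eq_one.1 hc
      have := hw1 a (by rw [ha]; simp)
      rw [ha, Finset.sum_singleton] at h
      linarith
    · obtain ⟨a, b, hab, ha⟩ := Finset.card_eq_two.1 hc
      have ha1 := hty a (by rw [ha]; simp)
      have hb1 := hty b (by rw [ha]; simp)
      rw [ha, Finset.sum_pair hab] at h ⊢
      rcases ha1 with ha | ha | ha | ha | ha <;> rcases hb1 with hb | hb | hb | hb | hb <;>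
        linarith [ha.1, ha.2, hb.1, hb.2]
    · obtain ⟨a, b, c, hab, hac, hbc, ha⟩ := Finset.card_eq_three.1 hc
      have ha1 := hty a (by rw [ha]; simp)
      have hb1 := hty b (by rw [ha]; simp)
      have hc1 := hty c (by rw [ha]; simp)
      rw [ha, Finset.sum_insert (by simp [hab, hac]), Finset.sum_pair hbc] at h ⊢
      rcases ha1 with ha | ha | ha | ha | ha <;> rcases hb1 with hb | hb | hb | hb | hb <;>
        rcases hc1 with hc | hc | hc | hc | hc <;>
        linarith [ha.1, ha.2, hb.1, hb.2, hc.1, hc.2]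
  · have h3 := Finset.card_nsmul_le_sum R (fun q => tq 12 (B q) (e q)) 6 ht6
    rw [nsmul_eq_mul] at h3
    have h4 : (4 : ℤ) ≤ R.card := by exact_mod_cast hc
    linarith

open scoped Classical in
/-- **Weight 48.** -/
theorem round48 {ι : Type*} (S : Finset ι) (B : ι → Prop) (e : ι → ℕ) (he : ∀ q, 1 ≤ e q)
    (h : (2 : ℚ) < ∑ q ∈ S, wq (B q) (e q)) : (97 : ℤ) ≤ ∑ q ∈ S, tq 48 (B q) (e q) := by
  obtain ⟨h1, h2⟩ := sum_rel S B e he 48
  rw [← h1] at h
  rw [← h2]
  set R := S.filter (fun q => B q ∨ 2 ≤ e q) with hR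
  have hty := fun q (hq : q ∈ R) => type48 (B q) (e q) (he q) (Finset.mem_filter.1 hq).2
  have ht6 : ∀ q ∈ R, (24 : ℤ) ≤ tq 48 (B q) (e q) := by
    intro q hq
    have : (24 : ℚ) ≤ tq 48 (B q) (e q) := by
      rcases hty q hq with h | h | h | h | h <;> linarith [h.2]
    exact_mod_cast this
  have hw1 : ∀ q ∈ R, wq (B q) (e q) ≤ 1 := fun q _ => wq_le _ _ (he q)
  have goal : (97 : ℚ) ≤ ∑ q ∈ R, (tq 48 (B q) (e q) : ℚ) → (97 : ℤ) ≤ ∑ q ∈ R, tq 48 (B q) (e q) := by
    intro h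
    exact_mod_cast h
  rcases Nat.lt_or_ge R.card 5 with hc | hc
  · rcases Nat.lt_or_ge R.card 3 with hc3 | hc3
    · exfalso
      have h3 := Finset.sum_le_card_nsmul R (fun q => wq (B q) (e q)) 1 hw1
      rw [nsmul_eq_mul, mul_one] at h3
      have h4 : (R.card : ℚ) ≤ 2 := by exact_mod_cast (by omega : R.card ≤ 2)
      linarith
    apply goal
    have hcases : R.card = 3 ∨ R.card = 4 := by omega
    rcases hcases with hc | hc
    · obtain ⟨a, b, c, hab, hac, hbc, ha⟩ := Finset.card_eq_three.1 hc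
      have ha1 := hty a (by rw [ha]; simp)
      have hb1 := hty b (by rw [ha]; simp)
      have hc1 := hty c (by rw [ha]; simp)
      rw [ha, Finset.sum_insert (by simp [hab, hac]), Finset.sum_pair hbc] at h ⊢
      rcases ha1 with ha | ha | ha | ha | ha <;> rcases hb1 with hb | hb | hb | hb | hb <;>
        rcases hc1 with hc | hc | hc | hc | hc <;>
        linarith [ha.1, ha.2, hb.1, hb.2, hc.1, hc.2]
    · by_cases hall : ∀ q ∈ R, wq (B q) (e q) ≤ 1 / 2
      · exfalso
        have h3 := Finset.sum_le_card_nsmul R (fun q => wq (B q) (e q)) (1 / 2) hall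
        rw [nsmul_eq_mul, hc] at h3
        norm_num at h3
        linarith
      · push Not at hall
        obtain ⟨a, haR, ha2⟩ := hall
        have ha32 : (32 : ℚ) ≤ tq 48 (B a) (e a) := by
          rcases hty a haR with h | h | h | h | h
          · linarith [h.1]
          · linarith [h.2]
          · linarith [h.2]
          · linarith [h.2]
          · linarith [h.2]
        rw [← Finset.add_sum_erase R _ haR]
        have h3 := Finset.card_nsmul_le_sum (R.erase a) (fun q => (tq 48 (B q) (e q) : ℚ)) 24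
          (fun q hq => by exact_mod_cast ht6 q (Finset.mem_of_mem_erase hq))
        rw [nsmul_eq_mul, Finset.card_erase_of_mem haR, hc] at h3
        norm_num at h3
        linarith
  · have h3 := Finset.card_nsmul_le_sum R (fun q => tq 48 (B q) (e q)) 24 ht6
    rw [nsmul_eq_mul] at h3
    have h4 : (5 : ℤ) ≤ R.card := by exact_mod_cast hc
    linarith

open scoped Classical in
/-- **Weight 42.** -/
theorem round42 {ι : Type*} (S : Finset ι) (B : ι → Prop) (e : ι → ℕ) (he : ∀ q, 1 ≤ e q)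
    (h : (2 : ℚ) < ∑ q ∈ S, wq (B q) (e q)) : (85 : ℤ) ≤ ∑ q ∈ S, tq 42 (B q) (e q) := by
  obtain ⟨h1, h2⟩ := sum_rel S B e he 42
  rw [← h1] at h
  rw [← h2]
  set R := S.filter (fun q => B q ∨ 2 ≤ e q) with hR
  have hty := fun q (hq : q ∈ R) => type42 (B q) (e q) (he q) (Finset.mem_filter.1 hq).2
  have ht6 : ∀ q ∈ R, (21 : ℤ) ≤ tq 42 (B q) (e q) := by
    intro q hq
    have : (21 : ℚ) ≤ tq 42 (B q) (e q) := by
      rcases hty q hq with h | h | h | h | h <;> linarith [h.2]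
    exact_mod_cast this
  have hw1 : ∀ q ∈ R, wq (B q) (e q) ≤ 1 := fun q _ => wq_le _ _ (he q)
  have goal : (85 : ℚ) ≤ ∑ q ∈ R, (tq 42 (B q) (e q) : ℚ) → (85 : ℤ) ≤ ∑ q ∈ R, tq 42 (B q) (e q) := by
    intro h
    exact_mod_cast h
  rcases Nat.lt_or_ge R.card 5 with hc | hc
  · rcases Nat.lt_or_ge R.card 3 with hc3 | hc3
    · exfalso
      have h3 := Finset.sum_le_card_nsmul R (fun q => wq (B q) (e q)) 1 hw1
      rw [nsmul_eq_mul, mul_one] at h3
      have h4 : (R.card : ℚ) ≤ 2 := by exact_mod_cast (by omega : R.card ≤ 2)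
      linarith
    apply goal
    have hcases : R.card = 3 ∨ R.card = 4 := by omega
    rcases hcases with hc | hc
    · obtain ⟨a, b, c, hab, hac, hbc, ha⟩ := Finset.card_eq_three.1 hc
      have ha1 := hty a (by rw [ha]; simp)
      have hb1 := hty b (by rw [ha]; simp)
      have hc1 := hty c (by rw [ha]; simp)
      rw [ha, Finset.sum_insert (by simp [hab, hac]), Finset.sum_pair hbc] at h ⊢
      rcases ha1 with ha | ha | ha | ha | ha <;> rcases hb1 with hb | hb | hb | hb | hb <;>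
        rcases hc1 with hc | hc | hc | hc | hc <;>
        linarith [ha.1, ha.2, hb.1, hb.2, hc.1, hc.2]
    · by_cases hall : ∀ q ∈ R, wq (B q) (e q) ≤ 1 / 2
      · exfalso
        have h3 := Finset.sum_le_card_nsmul R (fun q => wq (B q) (e q)) (1 / 2) hall
        rw [nsmul_eq_mul, hc] at h3
        norm_num at h3
        linarith
      · push Not at hall
        obtain ⟨a, haR, ha2⟩ := hall
        have ha32 : (28 : ℚ) ≤ tq 42 (B a) (e a) := by
          rcases hty a haR with h | h | h | h | h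
          · linarith [h.1]
          · linarith [h.2]
          · linarith [h.2]
          · linarith [h.2]
          · linarith [h.2]
        rw [← Finset.add_sum_erase R _ haR]
        have h3 := Finset.card_nsmul_le_sum (R.erase a) (fun q => (tq 42 (B q) (e q) : ℚ)) 21
          (fun q hq => by exact_mod_cast ht6 q (Finset.mem_of_mem_erase hq))
        rw [nsmul_eq_mul, Finset.card_erase_of_mem haR, hc] at h3
        norm_num at h3
        linarith
  · have h3 := Finset.card_nsmul_le_sum R (fun q => tq 42 (B q) (e q)) 21 ht6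
    rw [nsmul_eq_mul] at h3
    have h4 : (5 : ℤ) ≤ R.card := by exact_mod_cast hc
    linarith

end Q36.PT
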