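import Pool.Agent.TH143.GE.Gap
import Pool.Agent.W619.X.Exist
import Pool.Agent.Q36.PT.Ar

/-! Forms of a fixed weight on an orbifold curve. -/

set_option autoImplicit false
set_option linter.overlappingInstances false
set_option linter.unusedSectionVars false

open Polynomial FF IntermediateField

namespace Q36.PT

open Pool.Agent.W603.LV Pool.Agent.W619.PQ Pool.Agent.W619.PL Pool.Agent.W619.TW
  Pool.Agent.W619.X Pool.Agent.TH143.GE

section

variable {k F : Type} [Field k] [Field F] [Algebra k F] [CharZero k] [IsFF k F] [IsAlgClosed k]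

theorem const_of_alg {z : F} (hz : IsAlgebraic k z) : ∃ c : k, z = algebraMap k F c := by
  obtain ⟨c, hc⟩ := minpoly.mem_range_of_degree_eq_one k z
    (IsAlgClosed.degree_eq_one_of_irreducible k (minpoly.irreducible hz.isIntegral))
  exact ⟨c, hc.symm⟩

/-- all regular differentials are proportional -/
def PropD (D : Derivation k F F) : Prop :=
  ∀ f g : F, f ≠ 0 → g ≠ 0 → (∀ P : Place k F, vo P D ≤ P.ord f) →
    (∀ P : Place k F, vo P D ≤ P.ord g) → ∃ c : k, f = algebraMap k F c * g

theorem PropD.smul {D : Derivation k F F} (hD : D ≠ 0) (h : PropD D) {a : F} (ha : a ≠ 0) :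
    PropD (a • D) := by
  intro f g hf hg hfr hgr
  obtain ⟨c, hc⟩ := h (a⁻¹ * f) (a⁻¹ * g) (mul_ne_zero (inv_ne_zero ha) hf)
    (mul_ne_zero (inv_ne_zero ha) hg) (fun P => by
      have := hfr P
      rw [vo_smul P hD ha] at this
      rw [P.ord_mul (inv_ne_zero ha) hf, P.ord_inv]
      omega) (fun P => by
      have := hgr P
      rw [vo_smul P hD ha] at this
      rw [P.ord_mul (inv_ne_zero ha) hg, P.ord_inv]
      omega)
  refine ⟨c, ?_⟩
  have h1 : a * (a⁻¹ * f) = a * (algebraMap k F c * (a⁻¹ * g)) := congrArg (fun z => a * z) hc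
  rw [← mul_assoc, mul_inv_cancel₀ ha, one_mul] at h1
  rw [h1]
  field_simp

/-- the functionals which vanish on the sum of the two rings are proportional -/
theorem lam_prop' (h0 : PropD (der k F)) {x : F} (hx : Transcendental k x) {lam mu : F →ₗ[k] k}
    (hlB : ∀ y ∈ BB (k := k) x, lam y = 0) (hlI : ∀ y ∈ BI (k := k) x, lam y = 0)
    (hmB : ∀ y ∈ BB (k := k) x, mu y = 0) (hmI : ∀ y ∈ BI (k := k) x, mu y = 0)
    (hmu : mu ≠ 0) : ∃ c : k, ∀ y, lam y = c * mu y := by
  by_cases hlam : lam = 0
  · exact ⟨0, fun y => by rw [hlam, zero_mul]; rfl⟩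
  have hD : der k F ≠ 0 := der_ne
  have hDx := der_ne_zero hD hx
  set D := ((der k F) x)⁻¹ • der k F with hDdef
  have hDx1 : D x = 1 := by simp [hDdef, hDx]
  obtain ⟨f, hf0, hf⟩ := exists_mult lam hlI hx hlB hlam
  obtain ⟨g, hg0, hg⟩ := exists_mult mu hmI hx hmB hmu
  have hfr := mult_regular hx D hDx1 lam hlI hlB hf0 hf
  have hgr := mult_regular hx D hDx1 mu hmI hmB hg0 hg
  obtain ⟨c, hc⟩ := h0.smul hD (inv_ne_zero hDx) f g hf0 hg0 hfr hgr
  refine ⟨c, fun y => ?_⟩
  have h1 := hf y
  have h2 := hg y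
  have h3 : Algebra.trace k⟮x⟯ F (f * y) =
      algebraMap k k⟮x⟯ c * Algebra.trace k⟮x⟯ F (g * y) := by
    have h4 : f * y = ((algebraMap k k⟮x⟯ c : k⟮x⟯) : F) * (g * y) := by
      rw [hc]
      change algebraMap k F c * g * y = algebraMap k F c * (g * y)
      ring
    rw [h4, trace_mul_left]
  rw [h3, map_mul, iota_const, h2] at h1
  have h5 := congrArg (fun z => HahnSeries.coeff z 1) h1
  simp only [HahnSeries.C_mul_eq_smul, HahnSeries.coeff_smul, SS_coeff] at h5
  rw [sub_self, zpow_zero, one_mul, smul_eq_mul] at h5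
  exact h5.symm

/-- If all regular differentials are proportional there are functions with a pole of any given order
at least two at a given place, and no other poles. -/
theorem exists_one_pole' (hrat : ¬ ∃ t : F, k⟮t⟯ = ⊤) (h0 : PropD (der k F)) (P : Place k F)
    {n : ℕ} (hn : 2 ≤ n) :
    ∃ b : F, b ≠ 0 ∧ P.ord b = -n ∧ ∀ Q : Place k F, Q ≠ P → 0 ≤ Q.ord b := by
  classical
  obtain ⟨π, hπ0, hπ⟩ := P.surj
  set x := π⁻¹ with hx
  have hx0 : x ≠ 0 := inv_ne_zero hπ0
  have hxP : P.ord x = -1 := by rw [hx, P.ord_inv, hπ]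
  have hxt : Transcendental k x := P.transcendental_of_ord_ne (by omega)
  obtain ⟨S, hS, -⟩ := poles (k := k) (K := F) hxt
  have hP : P ∈ S := (hS P).2 (by omega)
  obtain ⟨u, hu1, hu2⟩ := approx_one (S.erase P) P (by simp) x 0
  obtain ⟨w, hw1, hw2⟩ := approx_one (S.erase P) P (by simp) (x ^ n) 0
  have hunot : u ∉ BB (k := k) x ⊔ BI (k := k) x := by
    intro hu
    obtain ⟨b, hb1, hb2⟩ := lift_part hS hP hu fun Q hQ hne => hu2 Q (Finset.mem_erase.2 ⟨hne, hQ⟩)
    have h1 := ord_of_sub (P := P) (b := b) (v := x) (n := 1) hx0 hxP (by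
      have h2 := hb1.add hu1
      have h3 : b - u + (u - x) = b - x := by ring
      rw [h3] at h2
      exact h2.mono (by omega))
    exact hrat (rational_of_simple h1.2 fun Q hQ => (hb2 Q hQ).resolve_left h1.1)
  obtain ⟨mu, hmu1, hmu2⟩ := Submodule.exists_le_ker_of_notMem hunot
  have hmB : ∀ y ∈ BB (k := k) x, mu y = 0 := fun y hy => hmu2 (Submodule.mem_sup_left hy)
  have hmI : ∀ y ∈ BI (k := k) x, mu y = 0 := fun y hy => hmu2 (Submodule.mem_sup_right hy)
  have hmne : mu ≠ 0 := by
    rintro rfl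
    exact hmu1 rfl
  set α : k := mu w / mu u with hα
  set v : F := w - algebraMap k F α * u with hv
  have hmv : mu v = 0 := by
    rw [hv, map_sub, ← Algebra.smul_def, map_smul, smul_eq_mul, hα, div_mul_cancel₀ _ hmu1,
      sub_self]
  have hvmem : v ∈ BB (k := k) x ⊔ BI (k := k) x := by
    by_contra hcon
    obtain ⟨lam, hl1, hl2⟩ := Submodule.exists_le_ker_of_notMem hcon
    obtain ⟨c, hc⟩ := lam_prop' h0 hxt (lam := lam) (mu := mu)
      (fun y hy => hl2 (Submodule.mem_sup_left hy)) (fun y hy => hl2 (Submodule.mem_sup_right hy))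
      hmB hmI hmne
    apply hl1
    rw [hc, hmv, mul_zero]
  have hvS : ∀ Q ∈ S.erase P, Ge Q 0 v := by
    intro Q hQ
    have h1 := (Ge.const (P := Q) α).mul (hu2 Q hQ)
    rw [zero_add] at h1
    exact (hw2 Q hQ).sub h1
  obtain ⟨b, hb1, hb2⟩ := lift_part hS hP hvmem fun Q hQ hne =>
    hvS Q (Finset.mem_erase.2 ⟨hne, hQ⟩)
  have h1 := ord_of_sub (P := P) (b := b) (v := x ^ n) (n := n) (pow_ne_zero _ hx0)
    (by rw [P.ord_pow, hxP]; ring) (by
      have h2 : Ge P (-1) (b - v) := hb1.mono (by omega)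
      have h3 : Ge P (-1) (w - x ^ n) := hw1.mono (by omega)
      have h4 : Ge P (-1) (algebraMap k F α * u) := by
        have h5 : Ge P (-1) u := by
          have h6 : Ge P (-1) (u - x) := hu1.mono (by omega)
          have h7 : Ge P (-1) x := Or.inr (by omega)
          have h8 := h6.add h7
          rwa [sub_add_cancel] at h8
        have h9 := (Ge.const (P := P) α).mul h5
        rwa [zero_add] at h9
      have h5 : b - x ^ n = (b - v) + (w - x ^ n) - algebraMap k F α * u := by
        rw [hv]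
        ring
      rw [h5]
      exact ((h2.add h3).sub h4).mono (by omega))
  exact ⟨b, h1.1, h1.2, fun Q hQ => (hb2 Q hQ).resolve_left h1.1⟩

end

section

variable {k E0 : Type} [Field k] [CharZero k] [IsAlgClosed k] [Field E0] [Algebra k E0]
  [IsFF k E0]

/-- powers of a regular differential -/
theorem goodX_reg (B0 : Place k E0 → Prop) (x : Place k E0 → ℚ) (hx : ∀ q, x q ≤ 1)
    {D0 : Derivation k E0 E0} {f : E0} (hf : ∀ q : Place k E0, vo q D0 ≤ q.ord f) (m : ℕ) :
    GoodX B0 x m D0 (f ^ m) := by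
  intro q
  have h1 := hf q
  have h2 : (0 : ℤ) ≤ m := by positivity
  rw [q.ord_pow]
  have h3 : (m : ℤ) ≤ m * q.ord f + m * (1 - vo q D0) := by nlinarith
  refine ⟨by linarith, fun _ => ?_⟩
  have h4 : (m : ℚ) ≤ ((m * q.ord f + m * (1 - vo q D0) : ℤ) : ℚ) := by exact_mod_cast h3
  have h5 : (m : ℚ) * x q ≤ m := by
    have : (0 : ℚ) ≤ m := by positivity
    nlinarith [hx q]
  linarith

open scoped Classical in
/-- One form of weight `m`. -/
theorem one_form (B0 : Place k E0 → Prop) (e : Place k E0 → ℕ) (he : ∀ q, 1 ≤ e q)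
    (S : Finset (Place k E0)) (m : ℕ)
    (hS : (¬ ∃ t : E0, k⟮t⟯ = ⊤) ∨ (2 * m : ℤ) ≤ ∑ q ∈ S, tq m (B0 q) (e q)) :
    ∃ (D0 : Derivation k E0 E0) (c : E0), D0 ≠ 0 ∧ c ≠ 0 ∧
      GoodX B0 (fun q => 1 / (e q : ℚ)) m D0 c := by
  have hx1 : ∀ q, 1 / (e q : ℚ) ≤ 1 := by
    intro q
    have h1 : (1 : ℚ) ≤ e q := by exact_mod_cast he q
    rw [div_le_one (by linarith)]; exact h1
  by_cases hrat : ∃ t : E0, k⟮t⟯ = ⊤
  swap
  · obtain ⟨f, hf0, hf⟩ := exists_regular hrat (der_ne (k := k) (K := E0))
    exact ⟨der k E0, f ^ m, der_ne, pow_ne_zero _ hf0, goodX_reg B0 _ hx1 hf m⟩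
  have hsum := hS.resolve_left (fun h => h hrat)
  obtain ⟨x, hx⟩ := hrat
  obtain ⟨D, hD, hDx⟩ := exists_ddx (transcendental_of_top hx)
  obtain ⟨c, hc0, hc⟩ := exists_form_gen hx S (fun q => tq m (B0 q) (e q)) m 0
    (by push_cast; linarith) hD hDx
  refine ⟨D, c, hD, hc0, fun q => ?_⟩
  have h1 := hc 0 le_rfl q
  rw [pow_zero, mul_one] at h1
  have h2 : (if q ∈ S then tq m (B0 q) (e q) else 0) ≤ tq m (B0 q) (e q) := by
    split_ifs
    · exact le_rfl
    · exact tq_nonneg _ _ _ (he q)
  have h3 : (m : ℤ) - tq m (B0 q) (e q) ≤ q.ord c + m * (1 - vo q D) := by linarith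
  refine ⟨by linarith [tq_le (B0 q) (e q) m], fun hq => ?_⟩
  have h4 : (m : ℤ) - tq m (B0 q) (e q) = (((m + e q - 1) / e q : ℕ) : ℤ) := by
    unfold tq
    rw [if_neg hq]
    ring
  rw [h4] at h3
  exact ceil_le_of (e q) (he q) h3

open scoped Classical in
/-- Two forms of weight `m`. -/
theorem two_form (B0 : Place k E0 → Prop) (e : Place k E0 → ℕ) (he : ∀ q, 1 ≤ e q)
    (S : Finset (Place k E0)) (m : ℕ) (hm : 4 ≤ m)
    (hpos : (0 : ℚ) < canDeg k E0 + ∑ q ∈ S, wq (B0 q) (e q))
    (hS : (¬ ∃ t : E0, k⟮t⟯ = ⊤) ∨ (2 * m + 1 : ℤ) ≤ ∑ q ∈ S, tq m (B0 q) (e q)) :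
    ∃ (D0 : Derivation k E0 E0) (c c' : E0), D0 ≠ 0 ∧ c ≠ 0 ∧ c' ≠ 0 ∧
      GoodX B0 (fun q => 1 / (e q : ℚ)) m D0 c ∧ GoodX B0 (fun q => 1 / (e q : ℚ)) m D0 c' ∧
      Transcendental k (c' / c) := by
  have hx1 : ∀ q, 1 / (e q : ℚ) ≤ 1 := by
    intro q
    have h1 : (1 : ℚ) ≤ e q := by exact_mod_cast he q
    rw [div_le_one (by linarith)]; exact h1
  by_cases hrat : ∃ t : E0, k⟮t⟯ = ⊤
  · have hsum := hS.resolve_left (fun h => h hrat)
    obtain ⟨x, hx⟩ := hrat
    have hxt := transcendental_of_top hx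
    have hx0 : x ≠ 0 := fun h => hxt (by rw [h]; exact isAlgebraic_zero)
    obtain ⟨D, hD, hDx⟩ := exists_ddx hxt
    obtain ⟨c, hc0, hc⟩ := exists_form_gen hx S (fun q => tq m (B0 q) (e q)) m 1
      (by push_cast; linarith) hD hDx
    have key : ∀ j : ℕ, j ≤ 1 → GoodX B0 (fun q => 1 / (e q : ℚ)) m D (c * x ^ j) := by
      intro j hj q
      have h1 := hc j hj q
      have h2 : (if q ∈ S then tq m (B0 q) (e q) else 0) ≤ tq m (B0 q) (e q) := by
        split_ifs
        · exact le_rfl
        · exact tq_nonneg _ _ _ (he q)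
      have h3 : (m : ℤ) - tq m (B0 q) (e q) ≤ q.ord (c * x ^ j) + m * (1 - vo q D) := by linarith
      refine ⟨by linarith [tq_le (B0 q) (e q) m], fun hq => ?_⟩
      have h4 : (m : ℤ) - tq m (B0 q) (e q) = (((m + e q - 1) / e q : ℕ) : ℤ) := by
        unfold tq
        rw [if_neg hq]
        ring
      rw [h4] at h3
      exact ceil_le_of (e q) (he q) h3
    refine ⟨D, c * x ^ 0, c * x ^ 1, hD, mul_ne_zero hc0 (pow_ne_zero _ hx0),
      mul_ne_zero hc0 (pow_ne_zero _ hx0), key 0 (by omega), key 1 le_rfl, ?_⟩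
    rw [mul_div_mul_left _ _ hc0, pow_zero, pow_one, div_one]
    exact hxt
  · obtain ⟨f, hf0, hf⟩ := exists_regular hrat (der_ne (k := k) (K := E0))
    by_cases hprop : PropD (der k E0)
    swap
    · -- two independent differentials
      unfold PropD at hprop
      push Not at hprop
      obtain ⟨f, g, hf0, hg0, hf, hg, hne⟩ := hprop
      refine ⟨der k E0, g ^ m, g ^ (m - 1) * f, der_ne, pow_ne_zero _ hg0,
        mul_ne_zero (pow_ne_zero _ hg0) hf0, goodX_reg B0 _ hx1 hg m, ?_, ?_⟩
      · have h1 := (goodX_reg B0 _ hx1 hg (m - 1)).mul (pow_ne_zero _ hg0)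
          (pow_ne_zero 1 hf0) (goodX_reg B0 _ hx1 hf 1)
        rw [pow_one, Nat.sub_add_cancel (by omega)] at h1
        exact h1
      · have h1 : g ^ (m - 1) * f / g ^ m = f / g := by
          obtain ⟨r, rfl⟩ : ∃ r, m = r + 1 := ⟨m - 1, by omega⟩
          rw [Nat.add_sub_cancel, pow_succ]
          field_simp
        rw [h1]
        intro halg
        obtain ⟨c, hc⟩ := const_of_alg halg
        apply hne c
        rw [← hc, div_mul_cancel₀ _ hg0]
    · -- a place where there is room for a double pole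
      have hf0' := canDeg_nonneg hrat
      obtain ⟨P, hP⟩ : ∃ P : Place k E0, vo P (der k E0) + 1 ≤ P.ord f ∨
          (2 : ℤ) ≤ tq m (B0 P) (e P) := by
        by_contra hcon
        push Not at hcon
        have h1 : ∀ P, P.ord f = vo P (der k E0) := fun P => by
          have := (hcon P).1
          have := hf P
          omega
        set T : Finset (Place k E0) := (finite_support (k := k) f).toFinset ∪
          (vo_finite (der_ne (k := k) (K := E0))).toFinset
        have hs1 : ∑ q ∈ T, q.ord f = 0 := sum_ord_finset f T fun q hq =>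
          Finset.mem_union_left _ ((finite_support (k := k) f).mem_toFinset.2 hq)
        have hs2 : ∑ q ∈ T, vo q (der k E0) = - canDeg k E0 :=
          canDeg_finset (der_ne (k := k) (K := E0)) T fun q hq =>
          Finset.mem_union_right _ ((vo_finite (der_ne (k := k) (K := E0))).mem_toFinset.2 hq)
        rw [Finset.sum_congr rfl fun q _ => h1 q, hs2] at hs1
        have h2 : ∑ q ∈ S, wq (B0 q) (e q) ≤ 0 := by
          refine Finset.sum_nonpos fun q _ => ?_
          have h3 := (hcon q).2
          unfold tq at h3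
          unfold wq
          by_cases hb : B0 q
          · rw [if_pos hb] at h3
            omega
          · rw [if_neg hb] at h3 ⊢
            have h4 : e q = 1 := by
              by_contra h5
              have h6 : 2 ≤ e q := by have := he q; omega
              have h7 := ceil_mono (m := m) (by norm_num : 1 ≤ 2) h6
              omega
            rw [h4]
            norm_num
        have h3 : (canDeg k E0 : ℚ) = 0 := by
          have : canDeg k E0 = 0 := by omega
          rw [this]; norm_num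
        rw [h3] at hpos
        linarith
      obtain ⟨b, hb0, hbP, hbQ⟩ := exists_one_pole' hrat hprop P (n := 2) le_rfl
      refine ⟨der k E0, f ^ m, f ^ m * b, der_ne, pow_ne_zero _ hf0,
        mul_ne_zero (pow_ne_zero _ hf0) hb0, goodX_reg B0 _ hx1 hf m, ?_, ?_⟩
      · intro q
        rw [q.ord_mul (pow_ne_zero _ hf0) hb0, q.ord_pow]
        have hfq := hf q
        have hm0 : (0 : ℤ) ≤ m := by positivity
        by_cases hq : q = P
        · subst hq
          rw [hbP]
          push_cast
          rcases hP with hP | hP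
          · have h1 : (m : ℤ) ≤ m * q.ord f + -2 + m * (1 - vo q (der k E0)) := by
              have h2 : (m : ℤ) * (vo q (der k E0) + 1) ≤ m * q.ord f :=
                mul_le_mul_of_nonneg_left hP hm0
              have h3 : (4 : ℤ) ≤ m := by exact_mod_cast hm
              nlinarith
            refine ⟨by linarith, fun _ => ?_⟩
            have h4 : (m : ℚ) ≤ ((m * q.ord f + -2 + m * (1 - vo q (der k E0)) : ℤ) : ℚ) := by
              exact_mod_cast h1
            have h5 : (m : ℚ) * (1 / (e q : ℚ)) ≤ m := by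
              have : (0 : ℚ) ≤ m := by positivity
              nlinarith [hx1 q]
            push_cast at h4
            linarith
          · have h1 : (m : ℤ) - tq m (B0 q) (e q) ≤
                m * q.ord f + -2 + m * (1 - vo q (der k E0)) := by
              have h2 : (m : ℤ) * vo q (der k E0) ≤ m * q.ord f :=
                mul_le_mul_of_nonneg_left hfq hm0
              nlinarith
            refine ⟨by linarith [tq_le (B0 q) (e q) m], fun hq => ?_⟩
            have h4 : (m : ℤ) - tq m (B0 q) (e q) = (((m + e q - 1) / e q : ℕ) : ℤ) := by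
              unfold tq
              rw [if_neg hq]
              ring
            rw [h4] at h1
            have h5 := ceil_le_of (e q) (he q) h1
            push_cast at h5
            exact h5
        · have h1 := hbQ q hq
          have h3 : (m : ℤ) ≤ m * q.ord f + q.ord b + m * (1 - vo q (der k E0)) := by
            have h2 : (m : ℤ) * vo q (der k E0) ≤ m * q.ord f :=
              mul_le_mul_of_nonneg_left hfq hm0
            nlinarith
          refine ⟨by linarith, fun _ => ?_⟩
          have h4 : (m : ℚ) ≤ ((m * q.ord f + q.ord b + m * (1 - vo q (der k E0)) : ℤ) : ℚ) := by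
            exact_mod_cast h3
          have h5 : (m : ℚ) * (1 / (e q : ℚ)) ≤ m := by
            have : (0 : ℚ) ≤ m := by positivity
            nlinarith [hx1 q]
          push_cast at h4 ⊢
          linarith
      · rw [mul_div_cancel_left₀ _ (pow_ne_zero _ hf0)]
        exact P.transcendental_of_ord_ne (by omega)

end

end Q36.PT
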