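import Pool.Agent.Q36.PT.Lo
import Pool.Agent.W619.Y.LLow

/-! Equivariant data of a fixed weight. -/

set_option autoImplicit false
set_option linter.overlappingInstances false
set_option linter.unusedSectionVars false

universe u v

open Polynomial FF IntermediateField

namespace Q36.PT

open Pool.Agent.W603.LV Pool.Agent.W619.PQ Pool.Agent.W619.PL Pool.Agent.W619.TW
  Pool.Agent.W619.X Pool.Agent.W619.Y

section

variable {k : Type v} {L : Type u} [Field k] [CharZero k] [IsAlgClosed k] [Field L] [Algebra k L]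
  {n : ℕ}

/-- Equivariant data of a fixed weight, with boundary. -/
theorem eqv_fix (F : Fin n → IntermediateField k L)
    (G : Subgroup (L ≃ₐ[k] L)) [Finite G] (σ : G →* Equiv.Perm (Fin n))
    (hσ : ∀ (g : G) i, ∀ z ∈ F i, (g : L ≃ₐ[k] L) z ∈ F (σ g i))
    (Bd : Place k (fixedField G) → Prop) (N m : ℕ)
    (H : Set (Fin n)) (hH : ∀ (g : G) i, i ∈ H → σ g i ∈ H)
    (hdata : ∀ i, ∃ (x b b' : L), x ∈ Quo G σ F i ∧ Transcendental k x ∧
      b ∈ Quo G σ F i ∧ b ≠ 0 ∧ b' ∈ Quo G σ F i ∧ b' ≠ 0 ∧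
      GoodBd Bd (Quo G σ F i) N m x b ∧ GoodBd Bd (Quo G σ F i) N m x b' ∧
      (i ∈ H → Transcendental k (b' / b))) :
    ∃ (x c c' : Fin n → L),
      (∀ i, x i ∈ Quo G σ F i) ∧ (∀ i, Transcendental k (x i)) ∧
      (∀ (g : G) i, (g : L ≃ₐ[k] L) (x i) = x (σ g i)) ∧
      (∀ i, c i ∈ Quo G σ F i) ∧ (∀ i, c i ≠ 0) ∧ (∀ i, c' i ∈ Quo G σ F i) ∧ (∀ i, c' i ≠ 0) ∧
      (∀ (g : G) i, (g : L ≃ₐ[k] L) (c i) = c (σ g i)) ∧
      (∀ (g : G) i, (g : L ≃ₐ[k] L) (c' i) = c' (σ g i)) ∧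
      (∀ i, GoodBd Bd (Quo G σ F i) N m (x i) (c i)) ∧
      (∀ i, GoodBd Bd (Quo G σ F i) N m (x i) (c' i)) ∧
      (∀ i ∈ H, Transcendental k (c' i / c i)) := by
  choose x0 b0 b0' hx0 hxt0 hb0 hb0ne hb0' hb0ne' hg0 hg0' htr0 using hdata
  let R : Fin n → (L × L × L) → Prop := fun i t =>
    t.1 ∈ Quo G σ F i ∧ Transcendental k t.1 ∧ t.2.1 ∈ Quo G σ F i ∧ t.2.1 ≠ 0 ∧
      t.2.2 ∈ Quo G σ F i ∧ t.2.2 ≠ 0 ∧ GoodBd Bd (Quo G σ F i) N m t.1 t.2.1 ∧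
      GoodBd Bd (Quo G σ F i) N m t.1 t.2.2 ∧ (i ∈ H → Transcendental k (t.2.2 / t.2.1))
  have htrans : ∀ (g : G) (z : L), Transcendental k z → Transcendental k ((g : L ≃ₐ[k] L) z) :=
    fun g z hz h => hz ((isAlgebraic_algHom_iff (g : L ≃ₐ[k] L).toAlgHom
      (g : L ≃ₐ[k] L).injective).1 h)
  obtain ⟨t, ht, hteq⟩ := pEQV G n σ (L × L × L) R
    (fun g i t ht => by
      obtain ⟨h1, h2, h3, h4, h5, h6, h7, h8, h9⟩ := ht
      have hq := mem_Quo_iff hσ g i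
      refine ⟨(hq _).1 h1, htrans g _ h2, (hq _).1 h3, ?_, (hq _).1 h5, ?_, h7.map _ hq,
        h8.map _ hq, fun hi => ?_⟩
      · exact fun h => h4 ((map_eq_zero_iff _ (g : L ≃ₐ[k] L).injective).1 h)
      · exact fun h => h6 ((map_eq_zero_iff _ (g : L ≃ₐ[k] L).injective).1 h)
      · have h10 : i ∈ H := by
          have := hH g⁻¹ (σ g i) hi
          rwa [map_inv, inv_self] at this
        have h11 := htrans g _ (h9 h10)
        rw [map_div₀] at h11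
        exact h11)
    (fun i t ht g hg => by
      obtain ⟨h1, h2, h3, h4, h5, h6, h7, h8, h9⟩ := ht
      exact Prod.ext (quo_fix i g hg h1) (Prod.ext (quo_fix i g hg h3) (quo_fix i g hg h5)))
    (fun i => ⟨(x0 i, b0 i, b0' i), hx0 i, hxt0 i, hb0 i, hb0ne i, hb0' i, hb0ne' i, hg0 i,
      hg0' i, htr0 i⟩)
  exact ⟨fun i => (t i).1, fun i => (t i).2.1, fun i => (t i).2.2,
    fun i => (ht i).1, fun i => (ht i).2.1, fun g i => congrArg Prod.fst (hteq g i),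
    fun i => (ht i).2.2.1, fun i => (ht i).2.2.2.1, fun i => (ht i).2.2.2.2.1,
    fun i => (ht i).2.2.2.2.2.1, fun g i => congrArg (fun t => t.2.1) (hteq g i),
    fun g i => congrArg (fun t => t.2.2) (hteq g i),
    fun i => (ht i).2.2.2.2.2.2.1, fun i => (ht i).2.2.2.2.2.2.2.1,
    fun i hi => (ht i).2.2.2.2.2.2.2.2 hi⟩

end

end Q36.PT
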