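import Pool.Agent.Q36.PT.Ac

/-! Equivalences, with boundary. -/

set_option autoImplicit false
set_option linter.overlappingInstances false
set_option linter.unusedSectionVars false

open Polynomial FF IntermediateField

namespace Q36.PT

open Pool.Agent.W603.LV Pool.Agent.W619.PQ Pool.Agent.W619.PL Pool.Agent.W619.TW
  Pool.Agent.W619.X Pool.Agent.W619.Y

/-- The logarithmic plurigenus `P_m` is not zero: there is a nonzero `m`-fold pluricanonical form
which is regular along the divisorial places outside the boundary `Bd` and logarithmic along the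
divisorial places in `Bd`. -/
def LogPlurigenusPos (k : Type*) (K : Type*) [Field k] [Field K] [Algebra k K] (n : ℕ)
    (Bd : Place k K → Prop) (m : ℕ) : Prop :=
  ∃ ω : (Fin n → Derivation k K K) → K, IsPluriForm k K n m ω ∧
    (∀ v : Place k K, IsDivisorial v n → ¬ Bd v → RegularAt v n ω) ∧
    (∀ v : Place k K, IsDivisorial v n → Bd v → LogRegularAt v n ω) ∧ ∃ D, ω D ≠ 0

section

variable {k L : Type} [Field k] [CharZero k] [IsAlgClosed k] [Field L] [Algebra k L] {n : ℕ}

theorem reg_of_dom {K : Type} [Field K] [Algebra k K] {v : Place k K} {f : K}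
    (h : Dom v {1} 0 f) : v.Reg f := by
  rcases h with h3 | ⟨s, hs, hs0, h3⟩
  · exact Or.inl h3
  · right
    rw [Nat.cast_zero, zero_mul] at h3
    exact h3

theorem dom_of_reg1 {K : Type} [Field K] [Algebra k K] {v : Place k K} {f : K}
    (h : v.Reg f) (j : ℕ) : Dom v {1} j f := by
  rcases h with h | h
  · exact Or.inl h
  · exact Or.inr ⟨1, by simp, one_ne_zero, by rw [v.ord_one, mul_zero]; exact h⟩

theorem logPos_of_image {K : Type} [Field K] [Algebra k K] {Bd : Place k K → Prop} {m : ℕ}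
    (h : ImageGe k K n Bd m 0) : LogPlurigenusPos k K n Bd m := by
  obtain ⟨ω, hω, D, hD, -⟩ := h
  obtain ⟨h1, h2, h3⟩ := hω 0
  exact ⟨ω 0, h1, fun v hv hb D hD => reg_of_dom (h2 v hv hb D hD),
    fun v hv hb D hD => reg_of_dom (h3 v hv hb D hD), D, hD 0⟩

theorem not_logNeg_of_pos {K : Type} [Field K] [Algebra k K] {Bd : Place k K → Prop} {m : ℕ}
    (hm : 1 ≤ m) (h : LogPlurigenusPos k K n Bd m) : ¬ LogKodairaNeg k K n Bd := by
  obtain ⟨ω, h1, h2, h3, D, hD⟩ := h
  exact fun h => hD (h m hm ω h1 h2 h3 D)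

theorem logNeg_of_not_eff {K : Type} [Field K] [Algebra k K] {Bd : Place k K → Prop}
    (h : ¬ IsEff k K n Bd) : LogKodairaNeg k K n Bd := by
  intro m hm ω h1 h2 h3 D
  by_contra hD
  exact h ⟨m, hm, ω, ⟨h1, fun v hv hb D hD => dom_of_reg1 (h2 v hv hb D hD) 0,
    fun v hv hb D hD => dom_of_reg1 (h3 v hv hb D hD) 0⟩, D, hD⟩

/-- The logarithmic `P₁₂` criterion. -/
theorem log_criterion12 (hn : Algebra.trdeg k L = n)
    (F : Fin n → IntermediateField k L) [hF : ∀ i, IsFF k (F i)]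
    (halg : Algebra.IsAlgebraic ↥(⨆ i, F i) L)
    (G : Subgroup (L ≃ₐ[k] L)) [Finite G] (σ : G →* Equiv.Perm (Fin n))
    (hσ : ∀ (g : G) i, ∀ z ∈ F i, (g : L ≃ₐ[k] L) z ∈ F (σ g i))
    (B : ∀ i, Set (Place k ↥(F i ⊓ fixedField (stb G σ i)))) (hB : ∀ i, (B i).Finite)
    (h : LogMixedNonneg G σ F B) :
    ((∀ i, ¬ IsNegative (inf_le_left : F i ⊓ fixedField (stb G σ i) ≤ F i) (B i)) → ∀ m, 12 ∣ m →
      LogPlurigenusPos k (fixedField G) n (BdQ G σ F B) m) ∧
    (⨆ i, F i = ⊤ → BdInv G σ F B →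
      List.TFAE [¬ LogPlurigenusPos k (fixedField G) n (BdQ G σ F B) 12,
      LogKodairaNeg k (fixedField G) n (BdQ G σ F B),
      IsA1Uniruled k (fixedField G) n (BdQ G σ F B),
      ¬ IsPsef k (fixedField G) n (BdQ G σ F B),
      NumNeg k (fixedField G) n (BdQ G σ F B),
      ∃ i, IsNegative (inf_le_left : F i ⊓ fixedField (stb G σ i) ≤ F i) (B i)]) := by
  have hn0 : Algebra.trdeg k L = (0 + n : ℕ) := by rw [hn, zero_add]
  have h12 : (∀ i, ¬ IsNegative (inf_le_left : F i ⊓ fixedField (stb G σ i) ≤ F i) (B i)) →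
      ∀ m, 12 ∣ m → LogPlurigenusPos k (fixedField G) n (BdQ G σ F B) m := by
    intro hneg m hm
    have h1 := logPos_of_image (log12 hn0 F halg G σ hσ B hB h hneg m hm)
    rwa [zero_add] at h1
  refine ⟨h12, fun hsup hinv => ?_⟩
  have hess := ess_of_sup F hsup
  have hessb := ess_bot k L
  obtain ⟨hK1, hK2⟩ := ess_fixed hn G
  have hsup' : (⊥ : IntermediateField k L) ⊔ (⨆ i, F i) = ⊤ := by rw [bot_sup_eq]; exact hsup
  have halg' : Algebra.IsAlgebraic ↥((⊥ : IntermediateField k L) ⊔ ⨆ i, F i) L := by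
    rw [bot_sup_eq]; exact halg
  have hirr12 : ¬ (∃ i, IsNegative (inf_le_left : F i ⊓ fixedField (stb G σ i) ≤ F i) (B i)) →
      LogPlurigenusPos k (fixedField G) n (BdQ G σ F B) 12 := by
    intro hi
    exact h12 (fun i h => hi ⟨i, h⟩) 12 (dvd_refl _)
  have hnegN : (∃ i, IsNegative (inf_le_left : F i ⊓ fixedField (stb G σ i) ≤ F i) (B i)) →
      ¬ IsPsef k (fixedField G) n (BdQ G σ F B) ∧ NumNeg k (fixedField G) n (BdQ G σ F B) := by
    intro hi
    obtain ⟨-, -, h3, -⟩ :=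
      num_log pMANYB pCONJ pREST 0 n hn0 ⊥ (trdeg_bot k L) F hsup' G σ hσ B hB hinv
    have h4 := h3 hi
    rwa [zero_add] at h4
  tfae_have 1 → 6 := by
    intro h1
    by_contra h2
    exact h1 (hirr12 h2)
  tfae_have 6 → 4 := fun h1 => (hnegN h1).1
  tfae_have 6 → 5 := fun h1 => (hnegN h1).2
  tfae_have 4 → 2 := fun h1 => logNeg_of_not_eff fun h3 => h1 (psef_of_eff h3)
  tfae_have 2 → 1 := fun h1 h2 => not_logNeg_of_pos (by norm_num) h2 h1
  tfae_have 2 → 3 := by
    intro h1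
    have h2 := (a1LM 0 n hn0 ⊥ (trdeg_bot k L) F halg' G σ hσ B hB hinv h (by
      rw [zero_add]; exact h1)).2 hsup' (fun h3 => absurd h3 (not_neg_bot k L))
    rwa [zero_add] at h2
  tfae_have 3 → 4 := fun h1 => (a1_neg n hK2 _ h1).1
  tfae_have 5 → 1 := by
    intro h1 h2
    obtain ⟨ω, h3, h4, h4', D, hD⟩ := h2
    obtain ⟨m0, hm0⟩ := h1 {1}
    refine hm0 (12 * m0) (by omega) ?_
    have hreg : ∀ (v : Place k (fixedField G)) (f : fixedField G), v.Reg f → v.Reg (f ^ m0) := by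
      intro v f hf
      rcases hf with h5 | h5
      · rw [h5]
        rcases Nat.eq_zero_or_pos m0 with rfl | h6
        · exact Or.inr (by rw [pow_zero, v.ord_one])
        · exact Or.inl (zero_pow (by omega))
      · refine Or.inr ?_
        rw [v.ord_pow]
        positivity
    refine ⟨fun _ => fun D => ω D ^ m0, ?_, fun _ => ⟨?_, ?_, ?_⟩⟩
    · refine LinearIndependent.of_subsingleton 0 ?_
      intro h5
      exact pow_ne_zero m0 hD (congrFun h5 D)
    · intro A D
      change ω _ ^ m0 = _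
      rw [h3 A D, mul_pow, ← pow_mul]
    · intro v hv hb D hD
      exact dom_of_reg1 (hreg v _ (h4 v hv hb D hD)) 1
    · intro v hv hb D hD
      exact dom_of_reg1 (hreg v _ (h4' v hv hb D hD)) 1
  tfae_finish

end

end Q36.PT
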