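import Pool.Agent.Q36.PT.Cu
import Pool.Agent.W578.PG.DATAP
import Pool.Agent.W619.Y.LEqv

/-! Forms of a fixed weight on the quotient of a curve: from the curves to `Z`. -/

set_option autoImplicit false
set_option linter.overlappingInstances false
set_option linter.unusedSectionVars false

open Polynomial FF IntermediateField

namespace Q36.PT

open Pool.Agent.W603.LV Pool.Agent.W619.PQ Pool.Agent.W619.PL Pool.Agent.W619.TW
  Pool.Agent.W619.X Pool.Agent.W619.Y Pool.Agent.W578.PG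

section

variable {k E0 : Type} [Field k] [CharZero k] [IsAlgClosed k] [Field E0] [Algebra k E0]
  [IsFF k E0]

/-- change of the vector field -/
theorem GoodX.change {B0 : Place k E0 → Prop} {x : Place k E0 → ℚ} {m : ℕ}
    {D D' : Derivation k E0 E0} (hD : D ≠ 0) {c h : E0} (hh : h ≠ 0) (hD' : D' = h • D)
    (hc : c ≠ 0) (hg : GoodX B0 x m D c) : GoodX B0 x m D' (h ^ m * c) := by
  intro q
  have h1 : q.ord (h ^ m * c) + m * (1 - vo q D') = q.ord c + m * (1 - vo q D) := by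
    rw [q.ord_mul (pow_ne_zero _ hh) hc, q.ord_pow, hD', vo_smul q hD hh]
    ring
  rw [h1]
  exact hg q

/-- The two admissible kinds of weights. -/
def TwoWt (m : ℕ) : Prop := m = 42 ∨ (48 ≤ m ∧ 12 ∣ m)

open scoped Classical in
/-- One form of weight divisible by `12`. -/
theorem one_form12 (B0 : Place k E0 → Prop) (e : Place k E0 → ℕ) (he : ∀ q, 1 ≤ e q)
    (S : Finset (Place k E0)) (hsum : (0 : ℚ) ≤ canDeg k E0 + ∑ q ∈ S, wq (B0 q) (e q))
    (m : ℕ) (hm : 12 ∣ m) :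
    ∃ (D0 : Derivation k E0 E0) (c : E0), D0 ≠ 0 ∧ c ≠ 0 ∧
      GoodX B0 (fun q => 1 / (e q : ℚ)) m D0 c := by
  obtain ⟨D0, c, hD0, hc, hg⟩ := one_form B0 e he S 12 (by
    by_cases hrat : ∃ t : E0, k⟮t⟯ = ⊤
    · right
      obtain ⟨t, ht⟩ := hrat
      rw [canDeg_rational ht] at hsum
      have := round12 S B0 e he (by push_cast at hsum; linarith)
      push_cast
      linarith
    · exact Or.inl hrat)
  obtain ⟨a, rfl⟩ := hm
  refine ⟨D0, c ^ a, hD0, pow_ne_zero _ hc, ?_⟩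
  rw [mul_comm]
  exact hg.pow a

open scoped Classical in
/-- Two forms. -/
theorem two_formW (B0 : Place k E0 → Prop) (e : Place k E0 → ℕ) (he : ∀ q, 1 ≤ e q)
    (S : Finset (Place k E0)) (hsum : (0 : ℚ) < canDeg k E0 + ∑ q ∈ S, wq (B0 q) (e q))
    (m : ℕ) (hm : TwoWt m) :
    ∃ (D0 : Derivation k E0 E0) (c c' : E0), D0 ≠ 0 ∧ c ≠ 0 ∧ c' ≠ 0 ∧
      GoodX B0 (fun q => 1 / (e q : ℚ)) m D0 c ∧ GoodX B0 (fun q => 1 / (e q : ℚ)) m D0 c' ∧
      Transcendental k (c' / c) := by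
  have hr2 : ∀ t : E0, k⟮t⟯ = ⊤ → (2 : ℚ) < ∑ q ∈ S, wq (B0 q) (e q) := by
    intro t ht
    rw [canDeg_rational ht] at hsum
    push_cast at hsum
    linarith
  rcases hm with rfl | ⟨hm, a, rfl⟩
  · refine two_form B0 e he S 42 (by norm_num) hsum ?_
    by_cases hrat : ∃ t : E0, k⟮t⟯ = ⊤
    · right
      obtain ⟨t, ht⟩ := hrat
      have := round42 S B0 e he (hr2 t ht)
      push_cast
      linarith
    · exact Or.inl hrat
  · obtain ⟨b, rfl⟩ : ∃ b, a = b + 4 := ⟨a - 4, by omega⟩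
    obtain ⟨D0, c, c', hD0, hc, hc', hg, hg', htr⟩ := two_form B0 e he S 48 (by norm_num) hsum (by
      by_cases hrat : ∃ t : E0, k⟮t⟯ = ⊤
      · right
        obtain ⟨t, ht⟩ := hrat
        have := round48 S B0 e he (hr2 t ht)
        push_cast
        linarith
      · exact Or.inl hrat)
    obtain ⟨D1, d, hD1, hd, hgd⟩ := one_form12 B0 e he S hsum.le (12 * b) ⟨b, rfl⟩
    obtain ⟨h, hh⟩ := der_smul (D' := D0) hD1
    have hh0 : h ≠ 0 := by
      rintro rfl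
      rw [zero_smul] at hh
      exact hD0 hh
    have hd' := GoodX.change hD1 hh0 hh hd hgd
    have hdne : h ^ (12 * b) * d ≠ 0 := mul_ne_zero (pow_ne_zero _ hh0) hd
    have e1 : 12 * (b + 4) = 48 + 12 * b := by ring
    rw [e1]
    refine ⟨D0, c * (h ^ (12 * b) * d), c' * (h ^ (12 * b) * d), hD0, mul_ne_zero hc hdne,
      mul_ne_zero hc' hdne, hg.mul hc hdne hd', hg'.mul hc' hdne hd', ?_⟩
    rw [mul_div_mul_right _ _ hdne]
    exact htr

end

section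

variable {k : Type} [Field k] [CharZero k] [IsAlgClosed k]
  {E0 E : Type} [Field E0] [Field E] [Algebra k E0] [Algebra k E] [Algebra E0 E]
  [IsScalarTower k E0 E] [IsFF k E0] [IsFF k E] [FiniteDimensional E0 E]

/-- The degree of the orbifold divisor is nonnegative. -/
theorem deg_nonneg {H : Type*} [Group H] [Finite H] (ρ : H →* (E ≃ₐ[k] E))
    (hfix : ∀ (h : H) (z : E0), ρ h (algebraMap E0 E z) = algebraMap E0 E z)
    (hinv : ∀ z : E, (∀ h, ρ h z = z) → ∃ z0, algebraMap E0 E z0 = z)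
    (B0 : Place k E0 → Prop) (hlog : HasLog E B0) (δ : Place k E0 → ℚ)
    (hfin : {q | δ q ≠ 0}.Finite) (h01 : ∀ q, 0 ≤ δ q ∧ δ q ≤ 1)
    (hadm : (∃ (D : Derivation k E0 E0) (o : Place k E0 → ℤ), D ≠ 0 ∧
        (∀ q, ∀ t, q.ord t = 1 → q.ord (D t) = o q) ∧ 0 ≤ ∑ᶠ q, (δ q - o q)) ∨
      ∃ N, (∀ q, (B0 q → 1 ≤ δ q) ∧ (¬ B0 q → ∀ (w : Place k E) e, Over w q e →
        1 - 1 / ((min e N : ℕ) : ℚ) ≤ δ q)) ∧ (6 ≤ N ∨
        (4 ≤ N ∧ ∀ (w : Place k E) (q : Place k E0), ¬ Over w q 3) ∨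
        (3 ≤ N ∧ ∀ (w : Place k E) (q : Place k E0), ¬ Over w q 2) ∨ (2 ≤ N ∧ ∃ q, B0 q))) :
    (0 : ℚ) ≤ canDeg k E0 + ∑ q ∈ hfin.toFinset, δ q := by
  classical
  rcases hadm with ⟨D, o, hD, ho, hd⟩ | ⟨N, hat, hN⟩
  · rwa [finsum_deg δ hfin D hD o ho] at hd
  · obtain ⟨T, r, hr, hsum⟩ := weak_ineq ρ hfix hinv B0 hlog
    have hr1 : ∀ q, 1 ≤ r q := fun q => by
      obtain ⟨w, hw⟩ := hr q
      exact hw.1
    obtain ⟨S, hS⟩ := truncate_weak B0 T r hr1 hsum N (by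
      rcases hN with h | ⟨h, h'⟩ | ⟨h, h'⟩ | h
      · exact Or.inl h
      · refine Or.inr (Or.inl ⟨h, fun q hq => ?_⟩)
        obtain ⟨w, hw⟩ := hr q
        rw [hq] at hw
        exact h' w q hw
      · refine Or.inr (Or.inr (Or.inl ⟨h, fun q hq => ?_⟩))
        obtain ⟨w, hw⟩ := hr q
        rw [hq] at hw
        exact h' w q hw
      · exact Or.inr (Or.inr (Or.inr h)))
    have h1 := sum_ge B0 δ hfin (fun q => (h01 q).1) r hr N hat S
    linarith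

/-- The degree of the orbifold divisor is positive. -/
theorem deg_pos {H : Type*} [Group H] [Finite H] (ρ : H →* (E ≃ₐ[k] E))
    (hfix : ∀ (h : H) (z : E0), ρ h (algebraMap E0 E z) = algebraMap E0 E z)
    (hinv : ∀ z : E, (∀ h, ρ h z = z) → ∃ z0, algebraMap E0 E z0 = z)
    (B0 : Place k E0 → Prop) (hfinB : (UB1 E B0).Finite)
    (hpos : 0 < canDeg k E + (UB1 E B0).ncard) (δ : Place k E0 → ℚ)
    (hfin : {q | δ q ≠ 0}.Finite) (h01 : ∀ q, 0 ≤ δ q ∧ δ q ≤ 1)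
    (hadm : (∃ (D : Derivation k E0 E0) (o : Place k E0 → ℤ), D ≠ 0 ∧
        (∀ q, ∀ t, q.ord t = 1 → q.ord (D t) = o q) ∧ 0 < ∑ᶠ q, (δ q - o q)) ∨
      ∃ N, (∀ q, (B0 q → 1 ≤ δ q) ∧ (¬ B0 q → ∀ (w : Place k E) e, Over w q e →
        1 - 1 / ((min e N : ℕ) : ℚ) ≤ δ q)) ∧ (7 ≤ N ∨
        (5 ≤ N ∧ ∀ (w : Place k E) (q : Place k E0), ¬ Over w q 3) ∨
        (4 ≤ N ∧ ∀ (w : Place k E) (q : Place k E0), ¬ Over w q 2) ∨ (3 ≤ N ∧ ∃ q, B0 q))) :
    (0 : ℚ) < canDeg k E0 + ∑ q ∈ hfin.toFinset, δ q := by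
  classical
  rcases hadm with ⟨D, o, hD, ho, hd⟩ | ⟨N, hat, hN⟩
  · rwa [finsum_deg δ hfin D hD o ho] at hd
  · obtain ⟨T, r', hr', hsum'⟩ := strict_ineq ρ hfix hinv B0 hfinB hpos
    have hex : ∀ q : Place k E0, ∃ e, ∃ w : Place k E, Over w q e := fun q => exists_place_over q
    choose r hr using hex
    have hr1 : ∀ q, 1 ≤ r q := fun q => by
      obtain ⟨w, hw⟩ := hr q
      exact hw.1
    have hsum : (0 : ℚ) < canDeg k E0 + ∑ q ∈ T, (if B0 q then 1 else 1 - 1 / (r q : ℚ)) := by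
      refine lt_of_lt_of_le hsum' ?_
      have h1 : ∑ q ∈ T, (if B0 q then 1 else 1 - 1 / (r' q : ℚ)) ≤
          ∑ q ∈ T, (if B0 q then 1 else 1 - 1 / (r q : ℚ)) := by
        refine Finset.sum_le_sum fun q _ => ?_
        split_ifs
        · exact le_rfl
        · obtain ⟨w, hw⟩ := hr q
          have h2 : (1 : ℚ) ≤ r' q := by exact_mod_cast (hr' q).1
          have h3 : (r' q : ℚ) ≤ r q := by exact_mod_cast (hr' q).2 w _ hw
          have h4 := one_div_le_one_div_of_le (by linarith) h3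
          linarith
      linarith
    obtain ⟨S, hS⟩ := truncate_strict B0 T r hr1 hsum N (by
      rcases hN with h | ⟨h, h'⟩ | ⟨h, h'⟩ | h
      · exact Or.inl h
      · refine Or.inr (Or.inl ⟨h, fun q hq => ?_⟩)
        obtain ⟨w, hw⟩ := hr q
        rw [hq] at hw
        exact h' w q hw
      · refine Or.inr (Or.inr (Or.inl ⟨h, fun q hq => ?_⟩))
        obtain ⟨w, hw⟩ := hr q
        rw [hq] at hw
        exact h' w q hw
      · exact Or.inr (Or.inr (Or.inr h)))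
    have h1 := sum_ge B0 δ hfin (fun q => (h01 q).1) r hr N hat S
    linarith

/-- Rounding up the orbifold divisor. -/
theorem round_up {H : Type*} [Group H] [Finite H] (ρ : H →* (E ≃ₐ[k] E))
    (hfix : ∀ (h : H) (z : E0), ρ h (algebraMap E0 E z) = algebraMap E0 E z)
    (hinv : ∀ z : E, (∀ h, ρ h z = z) → ∃ z0, algebraMap E0 E z0 = z)
    (B0 : Place k E0 → Prop) [DecidablePred B0] (δ : Place k E0 → ℚ) (N : ℕ) (hN : 1 ≤ N)
    (hδ1 : ∀ q, δ q ≤ 1)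
    (hδN : ∀ q, ¬ B0 q → 1 / (N : ℚ) ≤ 1 - δ q)
    (hδe : ∀ q, ¬ B0 q → ∀ (w : Place k E) e, Over w q e → δ q ≤ 1 - 1 / (e : ℚ)) :
    ∃ e : Place k E0 → ℕ, (∀ q, 1 ≤ e q) ∧ (∀ q, δ q ≤ wq (B0 q) (e q)) ∧
      (∀ q, 1 / (N : ℚ) ≤ 1 / (e q : ℚ)) ∧
      ∀ q (w : Place k E) e', Over w q e' → (1 : ℚ) ≤ e' * (1 / (e q : ℚ)) := by
  have hex : ∀ q : Place k E0, ∃ e, ∃ w : Place k E, Over w q e := fun q => exists_place_over q
  choose r hr using hex
  have hr1 : ∀ q, 1 ≤ r q := fun q => by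
    obtain ⟨w, hw⟩ := hr q
    exact hw.1
  have huniq : ∀ (w : Place k E) (q : Place k E0) (e : ℕ), Over w q e → e = r q := by
    intro w q e h
    obtain ⟨w', hw'⟩ := hr q
    exact over_eq ρ hfix hinv h hw'
  have hm : ∀ q, (1 : ℚ) ≤ ((min (r q) N : ℕ) : ℚ) ∧
      ((min (r q) N : ℕ) : ℚ) ≤ r q ∧ ((min (r q) N : ℕ) : ℚ) ≤ N := fun q =>
    ⟨by exact_mod_cast le_min (hr1 q) hN, by exact_mod_cast min_le_left _ _,
      by exact_mod_cast min_le_right _ _⟩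
  refine ⟨fun q => min (r q) N, fun q => le_min (hr1 q) hN, fun q => ?_, fun q => ?_,
    fun q w e' he' => ?_⟩
  · unfold wq
    split_ifs with hb
    · exact hδ1 q
    · obtain ⟨w, hw⟩ := hr q
      have h1 := hδe q hb w _ hw
      have h2 := hδN q hb
      change δ q ≤ 1 - 1 / ((min (r q) N : ℕ) : ℚ)
      rcases le_total (r q) N with h | h
      · rw [min_eq_left h]; exact h1
      · rw [min_eq_right h]; linarith
  · exact one_div_le_one_div_of_le (by linarith [(hm q).1]) (hm q).2.2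
  · rw [huniq w q e' he']
    have h1 := (hm q).1
    rw [mul_one_div, le_div_iff₀ (by linarith), one_mul]
    exact (hm q).2.1

end

section

variable {k L : Type} [Field k] [CharZero k] [IsAlgClosed k] [Field L] [Algebra k L]

/-- One form of weight divisible by `12`. -/
theorem data12 (F : IntermediateField k L) [hF : IsFF k F]
    (H : Subgroup (L ≃ₐ[k] L)) [Finite H] (hst : ∀ g ∈ H, ∀ z ∈ F, g z ∈ F) (N : ℕ) (hN : 1 ≤ N)
    (B : Set (Place k ↥(F ⊓ fixedField H))) (hB : B.Finite)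
    (hneg : ¬ IsNegative (inf_le_left : F ⊓ fixedField H ≤ F) B)
    (δ : Place k ↥(F ⊓ fixedField H) → ℚ) (hδN : ∀ p ∉ B, 1 / (N : ℚ) ≤ 1 - δ p)
    (hδ : OrbNonneg (inf_le_left : F ⊓ fixedField H ≤ F) B δ) (m : ℕ) (hm : 12 ∣ m) :
    ∃ (x b : L), x ∈ F ⊓ fixedField H ∧ Transcendental k x ∧
      b ∈ F ⊓ fixedField H ∧ b ≠ 0 ∧ ∀ w : Place k L,
        ((∀ p ∈ B, ∀ a, ¬ Over w p a) → GoodPl (F ⊓ fixedField H) N m x b w) ∧
        LogPl (F ⊓ fixedField H) m x b w := by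
  classical
  obtain ⟨hUB, hlog, -, -⟩ := ld_nonneg F (hF := hF) H hst B hB hneg
  let _ : Algebra ↥(F ⊓ fixedField H) F :=
    (inclusion (inf_le_left : F ⊓ fixedField H ≤ F)).toRingHom.toAlgebra
  have t1 : IsScalarTower k ↥(F ⊓ fixedField H) F := IsScalarTower.of_algebraMap_eq fun c => rfl
  have f1 : FiniteDimensional ↥(F ⊓ fixedField H) F := inf_finite H F hst fun z => rfl
  have f2 : IsFF k ↥(F ⊓ fixedField H) := isFF_down (E := F)
  have hfix : ∀ (g : H) (z : ↥(F ⊓ fixedField H)),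
      rho H F hst g (algebraMap ↥(F ⊓ fixedField H) F z) = algebraMap ↥(F ⊓ fixedField H) F z := by
    intro g z
    apply Subtype.ext
    exact z.2.2 g
  have hinv : ∀ z : F, (∀ g, rho H F hst g z = z) →
      ∃ z0, algebraMap ↥(F ⊓ fixedField H) F z0 = z := by
    intro z hz
    refine ⟨⟨(z : L), z.2, fun g => ?_⟩, rfl⟩
    exact congrArg (Subtype.val : F → L) (hz g)
  have hw := adm_of_nonneg (inf_le_left : F ⊓ fixedField H ≤ F) rfl hδ
  obtain ⟨⟨hfin, h01⟩, -⟩ := hδ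
  have hsum := deg_nonneg (E := F) (rho H F hst) hfix hinv
    (fun q => q ∈ B) hlog δ hfin (fun q => ⟨(h01 q).1, (h01 q).2.1⟩) (by
      rcases hw with ⟨D, o, h1, h2, h3, -⟩ | h
      · exact Or.inl ⟨D, o, h1, h2, h3⟩
      · exact Or.inr h)
  obtain ⟨e, he1, he2, he3, he4⟩ := round_up (E := F) (rho H F hst) hfix hinv
    (fun q => q ∈ B) δ N hN (fun q => (h01 q).2.1) (fun q hq => hδN q hq)
    (fun q hq w e he => (h01 q).2.2 hq w e he)
  have hsum' : (0 : ℚ) ≤ canDeg k ↥(F ⊓ fixedField H) +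
      ∑ q ∈ hfin.toFinset, wq (q ∈ B) (e q) := by
    have := Finset.sum_le_sum fun q (_ : q ∈ hfin.toFinset) => he2 q
    linarith
  obtain ⟨D0, c, hD0, hc, hg⟩ := one_form12 (fun q => q ∈ B) e he1 hfin.toFinset
    (by convert hsum') m hm
  obtain ⟨x, hx⟩ := IsFF.exists_transcendental (k := k) (K := ↥(F ⊓ fixedField H))
  refine ⟨x, _, x.2, transcendental_map' hx, (c / (D0 x) ^ m).2, ?_,
    locB F (hF := hF) H hst N m hN B (fun q => 1 / (e q : ℚ)) D0 c x (fun p _ => he3 p)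
      (fun p _ q e' he' => he4 p q e' he') hD0 hc hx hg⟩
  intro h
  have h1 : c / (D0 x) ^ m = 0 := Subtype.ext h
  exact div_ne_zero hc (pow_ne_zero _ (der_ne_zero hD0 hx)) h1

/-- Two forms. -/
theorem data48 (F : IntermediateField k L) [hF : IsFF k F]
    (H : Subgroup (L ≃ₐ[k] L)) [Finite H] (hst : ∀ g ∈ H, ∀ z ∈ F, g z ∈ F) (N : ℕ) (hN : 1 ≤ N)
    (B : Set (Place k ↥(F ⊓ fixedField H))) (hB : B.Finite)
    (hneg : ¬ IsNegative (inf_le_left : F ⊓ fixedField H ≤ F) B)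
    (hflat : ¬ IsFlat (inf_le_left : F ⊓ fixedField H ≤ F) B)
    (δ : Place k ↥(F ⊓ fixedField H) → ℚ) (hδN : ∀ p ∉ B, 1 / (N : ℚ) ≤ 1 - δ p)
    (hδ : OrbPos (inf_le_left : F ⊓ fixedField H ≤ F) B δ) (m : ℕ) (hm : TwoWt m) :
    ∃ (x b b' : L), x ∈ F ⊓ fixedField H ∧ Transcendental k x ∧
      b ∈ F ⊓ fixedField H ∧ b ≠ 0 ∧ b' ∈ F ⊓ fixedField H ∧ b' ≠ 0 ∧ (∀ w : Place k L,
        ((∀ p ∈ B, ∀ a, ¬ Over w p a) → GoodPl (F ⊓ fixedField H) N m x b w ∧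
          GoodPl (F ⊓ fixedField H) N m x b' w) ∧
        LogPl (F ⊓ fixedField H) m x b w ∧ LogPl (F ⊓ fixedField H) m x b' w) ∧
      Transcendental k (b' / b) := by
  classical
  obtain ⟨hUB, hlog, -, hpos⟩ := ld_nonneg F (hF := hF) H hst B hB hneg
  let _ : Algebra ↥(F ⊓ fixedField H) F :=
    (inclusion (inf_le_left : F ⊓ fixedField H ≤ F)).toRingHom.toAlgebra
  have t1 : IsScalarTower k ↥(F ⊓ fixedField H) F := IsScalarTower.of_algebraMap_eq fun c => rfl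
  have f1 : FiniteDimensional ↥(F ⊓ fixedField H) F := inf_finite H F hst fun z => rfl
  have f2 : IsFF k ↥(F ⊓ fixedField H) := isFF_down (E := F)
  have hfix : ∀ (g : H) (z : ↥(F ⊓ fixedField H)),
      rho H F hst g (algebraMap ↥(F ⊓ fixedField H) F z) = algebraMap ↥(F ⊓ fixedField H) F z := by
    intro g z
    apply Subtype.ext
    exact z.2.2 g
  have hinv : ∀ z : F, (∀ g, rho H F hst g z = z) →
      ∃ z0, algebraMap ↥(F ⊓ fixedField H) F z0 = z := by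
    intro z hz
    refine ⟨⟨(z : L), z.2, fun g => ?_⟩, rfl⟩
    exact congrArg (Subtype.val : F → L) (hz g)
  have hw := adm_of_pos (inf_le_left : F ⊓ fixedField H ≤ F) rfl hδ
  obtain ⟨⟨hfin, h01⟩, -⟩ := hδ
  have hsum := deg_pos (E := F) (rho H F hst) hfix hinv (fun q => q ∈ B) hUB (hpos hflat) δ hfin
    (fun q => ⟨(h01 q).1, (h01 q).2.1⟩) (by
      rcases hw with ⟨D, o, h1, h2, h3, h4⟩ | h
      · exact Or.inl ⟨D, o, h1, h2, h4 rfl⟩
      · exact Or.inr h)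
  obtain ⟨e, he1, he2, he3, he4⟩ := round_up (E := F) (rho H F hst) hfix hinv
    (fun q => q ∈ B) δ N hN (fun q => (h01 q).2.1) (fun q hq => hδN q hq)
    (fun q hq w e he => (h01 q).2.2 hq w e he)
  have hsum' : (0 : ℚ) < canDeg k ↥(F ⊓ fixedField H) +
      ∑ q ∈ hfin.toFinset, wq (q ∈ B) (e q) := by
    have := Finset.sum_le_sum fun q (_ : q ∈ hfin.toFinset) => he2 q
    linarith
  obtain ⟨D0, c, c', hD0, hc, hc', hg, hg', htr⟩ := two_formW (fun q => q ∈ B) e he1 hfin.toFinset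
    (by convert hsum') m hm
  obtain ⟨x, hx⟩ := IsFF.exists_transcendental (k := k) (K := ↥(F ⊓ fixedField H))
  have hDx := der_ne_zero hD0 hx
  have hne : ∀ c : ↥(F ⊓ fixedField H), c ≠ 0 →
      ((c / (D0 x) ^ m : ↥(F ⊓ fixedField H)) : L) ≠ 0 := by
    intro c hc h
    have h1 : c / (D0 x) ^ m = 0 := Subtype.ext h
    exact div_ne_zero hc (pow_ne_zero _ hDx) h1
  refine ⟨x, ((c / (D0 x) ^ m : ↥(F ⊓ fixedField H)) : L),
    ((c' / (D0 x) ^ m : ↥(F ⊓ fixedField H)) : L), x.2, transcendental_map' hx,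
    (c / (D0 x) ^ m).2, hne c hc, (c' / (D0 x) ^ m).2, hne c' hc', fun w => ?_, ?_⟩
  · have a1 := locB F (hF := hF) H hst N m hN B (fun q => 1 / (e q : ℚ)) D0 c x (fun p _ => he3 p)
      (fun p _ q e' he' => he4 p q e' he') hD0 hc hx hg w
    have a2 := locB F (hF := hF) H hst N m hN B (fun q => 1 / (e q : ℚ)) D0 c' x (fun p _ => he3 p)
      (fun p _ q e' he' => he4 p q e' he') hD0 hc' hx hg' w
    exact ⟨fun h => ⟨a1.1 h, a2.1 h⟩, a1.2, a2.2⟩
  have h1 : ((c' / (D0 x) ^ m : ↥(F ⊓ fixedField H)) : L) /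
      ((c / (D0 x) ^ m : ↥(F ⊓ fixedField H)) : L) = ((c' / c : ↥(F ⊓ fixedField H)) : L) := by
    have h2 : c' / (D0 x) ^ m / (c / (D0 x) ^ m) = c' / c := by
      have := pow_ne_zero m hDx
      field_simp
    rw [← h2]
    rfl
  rw [h1]
  exact transcendental_map' htr

/-- The form on the quotient of each curve: weight divisible by `12`. -/
theorem dataN (n : ℕ) (F : Fin n → IntermediateField k L) [hF : ∀ i, IsFF k (F i)]
    (G : Subgroup (L ≃ₐ[k] L)) [Finite G] (σ : G →* Equiv.Perm (Fin n))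
    (hσ : ∀ (g : G) i, ∀ z ∈ F i, (g : L ≃ₐ[k] L) z ∈ F (σ g i)) (N : ℕ) (hN : 2 ≤ N) (i : Fin n)
    (B : Set (Place k ↥(F i ⊓ fixedField (stb G σ i)))) (hB : B.Finite)
    (hneg : ¬ IsNegative (inf_le_left : F i ⊓ fixedField (stb G σ i) ≤ F i) B)
    (h : (6 ≤ N ∨ (4 ≤ N ∧ ¬ 3 ∣ Nat.card G) ∨ (3 ≤ N ∧ ¬ 2 ∣ Nat.card G) ∨ B.Nonempty) ∨
        Wide 4 (inf_le_left : F i ⊓ fixedField (stb G σ i) ≤ F i) B ∨
        (∃ δ, OrbGe (inf_le_left : F i ⊓ fixedField (stb G σ i) ≤ F i) B δ ∧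
          ∀ q ∉ B, δ q ≤ 1 - 1 / (N : ℚ))) (m : ℕ) (hm : 12 ∣ m) :
      ∃ (x b : L), x ∈ Quo G σ F i ∧ Transcendental k x ∧
        b ∈ Quo G σ F i ∧ b ≠ 0 ∧ ∀ w : Place k L,
          ((∀ p ∈ B, ∀ a, ¬ Over w p a) → GoodPl (Quo G σ F i) N m x b w) ∧
          LogPl (Quo G σ F i) m x b w := by
  have hst := stb_stable (G := G) (σ := σ) hσ i
  have hδ : ∃ δ : Place k ↥(F i ⊓ fixedField (stb G σ i)) → ℚ,
      (∀ p ∉ B, 1 / (N : ℚ) ≤ 1 - δ p) ∧
      OrbNonneg (inf_le_left : F i ⊓ fixedField (stb G σ i) ≤ F i) B δ := by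
    have hidx : ∀ {r : ℕ}, ¬ r ∣ Nat.card G → ∀ (w : Place k (F i))
        (q : Place k ↥(F i ⊓ fixedField (stb G σ i))), ¬ LiesOver inf_le_left w q r :=
      fun hr w q => index_stb (F i) G (stb G σ i) (stb_le G σ i) hst hr w q
    rcases h with h | h | h
    · obtain ⟨⟨δ, h1, h2, h3⟩, -⟩ := delta_exists (F i) (hF := hF i) (stb G σ i) hst B
        hB N (by omega)
      refine ⟨δ, h3, h1, Or.inr ⟨N, h2, ?_⟩⟩
      rcases h with h | ⟨h, h'⟩ | ⟨h, h'⟩ | h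
      · exact Or.inl h
      · exact Or.inr (Or.inl ⟨h, fun w q => hidx h' w q⟩)
      · exact Or.inr (Or.inr (Or.inl ⟨h, fun w q => hidx h' w q⟩))
      · exact Or.inr (Or.inr (Or.inr ⟨hN, h⟩))
    · obtain ⟨δ, h1, h2, h3, -⟩ := half_factor (F i) (hF := hF i) (stb G σ i) hst B hB
      refine ⟨δ, fun p hp => ?_, h3 h⟩
      have h4 := h2 p hp
      have h5 : 1 / (N : ℚ) ≤ 1 / 2 :=
        one_div_le_one_div_of_le (by norm_num) (by exact_mod_cast hN)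
      linarith
    · obtain ⟨δ, h1, h2⟩ := h
      exact ⟨δ, fun p hp => by linarith [h2 p hp], h1.nonneg⟩
  obtain ⟨δ, h1, h2⟩ := hδ
  exact data12 (F i) (hF := hF i) (stb G σ i) hst N (by omega) B hB hneg δ h1 h2 m hm

/-- The forms on the quotient of each curve: two forms, if the curve is not flat. -/
theorem dataP (n : ℕ) (F : Fin n → IntermediateField k L) [hF : ∀ i, IsFF k (F i)]
    (G : Subgroup (L ≃ₐ[k] L)) [Finite G] (σ : G →* Equiv.Perm (Fin n))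
    (hσ : ∀ (g : G) i, ∀ z ∈ F i, (g : L ≃ₐ[k] L) z ∈ F (σ g i)) (N : ℕ) (hN : 2 ≤ N) (i : Fin n)
    (B : Set (Place k ↥(F i ⊓ fixedField (stb G σ i)))) (hB : B.Finite)
    (hneg : ¬ IsNegative (inf_le_left : F i ⊓ fixedField (stb G σ i) ≤ F i) B)
    (h : (7 ≤ N ∨ (5 ≤ N ∧ ¬ 3 ∣ Nat.card G) ∨ (4 ≤ N ∧ ¬ 2 ∣ Nat.card G) ∨
          (3 ≤ N ∧ B.Nonempty)) ∨
        (Wide 5 (inf_le_left : F i ⊓ fixedField (stb G σ i) ≤ F i) B ∨
          (IsFlat (inf_le_left : F i ⊓ fixedField (stb G σ i) ≤ F i) B ∧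
            Wide 4 (inf_le_left : F i ⊓ fixedField (stb G σ i) ≤ F i) B)) ∨
        (∃ δ, (OrbGt (inf_le_left : F i ⊓ fixedField (stb G σ i) ≤ F i) B δ ∨
          (IsFlat (inf_le_left : F i ⊓ fixedField (stb G σ i) ≤ F i) B ∧
            OrbGe (inf_le_left : F i ⊓ fixedField (stb G σ i) ≤ F i) B δ)) ∧
          ∀ q ∉ B, δ q ≤ 1 - 1 / (N : ℚ))) (m : ℕ)
    (hm : (48 ≤ m ∧ 12 ∣ m) ∨
      (m = 42 ∧ ¬ IsFlat (inf_le_left : F i ⊓ fixedField (stb G σ i) ≤ F i) B)) :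
      ∃ (x b b' : L), x ∈ Quo G σ F i ∧ Transcendental k x ∧
        b ∈ Quo G σ F i ∧ b ≠ 0 ∧ b' ∈ Quo G σ F i ∧ b' ≠ 0 ∧ (∀ w : Place k L,
          ((∀ p ∈ B, ∀ a, ¬ Over w p a) → GoodPl (Quo G σ F i) N m x b w ∧
            GoodPl (Quo G σ F i) N m x b' w) ∧
          LogPl (Quo G σ F i) m x b w ∧ LogPl (Quo G σ F i) m x b' w) ∧
        (¬ IsFlat (inf_le_left : F i ⊓ fixedField (stb G σ i) ≤ F i) B →
          Transcendental k (b' / b)) := by
  have hst := stb_stable (G := G) (σ := σ) hσ i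
  have hidx : ∀ {r : ℕ}, ¬ r ∣ Nat.card G → ∀ (w : Place k (F i))
      (q : Place k ↥(F i ⊓ fixedField (stb G σ i))), ¬ LiesOver inf_le_left w q r :=
    fun hr w q => index_stb (F i) G (stb G σ i) (stb_le G σ i) hst hr w q
  have hhalf : 1 / (N : ℚ) ≤ 1 / 2 :=
    one_div_le_one_div_of_le (by norm_num) (by exact_mod_cast hN)
  by_cases hflat : IsFlat (inf_le_left : F i ⊓ fixedField (stb G σ i) ≤ F i) B
  · have hδ : ∃ δ : Place k ↥(F i ⊓ fixedField (stb G σ i)) → ℚ,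
        (∀ p ∉ B, 1 / (N : ℚ) ≤ 1 - δ p) ∧
        OrbNonneg (inf_le_left : F i ⊓ fixedField (stb G σ i) ≤ F i) B δ := by
      rcases h with h | h | ⟨δ, h, h'⟩
      · obtain ⟨⟨δ, h1, h2, h3⟩, -⟩ := delta_exists (F i) (hF := hF i) (stb G σ i) hst B hB N
          (by omega)
        refine ⟨δ, h3, h1, Or.inr ⟨N, h2, ?_⟩⟩
        rcases h with h | ⟨h, h'⟩ | ⟨h, h'⟩ | ⟨h, h'⟩
        · exact Or.inl (by omega)
        · exact Or.inr (Or.inl ⟨by omega, fun w q => hidx h' w q⟩)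
        · exact Or.inr (Or.inr (Or.inl ⟨by omega, fun w q => hidx h' w q⟩))
        · exact Or.inr (Or.inr (Or.inr ⟨by omega, h'⟩))
      · obtain ⟨δ, h1, h2, h3, -⟩ := half_factor (F i) (hF := hF i) (stb G σ i) hst B hB
        refine ⟨δ, fun p hp => ?_, h3 ?_⟩
        · have h4 := h2 p hp
          linarith
        · rcases h with h | ⟨-, h⟩
          · exact h.imp id fun h8 => by omega
          · exact h
      · refine ⟨δ, fun p hp => by linarith [h' p hp], ?_⟩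
        rcases h with ⟨h1, d, h2, h3⟩ | ⟨-, h⟩
        · exact ⟨h1, Or.inl ⟨d, h2, h3.le⟩⟩
        · exact h.nonneg
    obtain ⟨δ, h1, h2⟩ := hδ
    obtain ⟨x, b, h4, h5, h6, h7, h8⟩ :=
      data12 (F i) (hF := hF i) (stb G σ i) hst N (by omega) B hB hneg δ h1 h2 m (by
        rcases hm with hm | hm
        · exact hm.2
        · exact absurd hflat hm.2)
    exact ⟨x, b, b, h4, h5, h6, h7, h6, h7, fun w => ⟨fun hw =>
      ⟨(h8 w).1 hw, (h8 w).1 hw⟩, (h8 w).2, (h8 w).2⟩, fun h => absurd hflat h⟩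
  · have hδ : ∃ δ : Place k ↥(F i ⊓ fixedField (stb G σ i)) → ℚ,
        (∀ p ∉ B, 1 / (N : ℚ) ≤ 1 - δ p) ∧
        OrbPos (inf_le_left : F i ⊓ fixedField (stb G σ i) ≤ F i) B δ := by
      rcases h with h | h | ⟨δ, h, h'⟩
      · obtain ⟨⟨δ, h1, h2, h3⟩, -⟩ := delta_exists (F i) (hF := hF i) (stb G σ i) hst B hB N
          (by omega)
        refine ⟨δ, h3, h1, Or.inr ⟨N, h2, ?_⟩⟩
        rcases h with h | ⟨h, h'⟩ | ⟨h, h'⟩ | ⟨h, h'⟩
        · exact Or.inl h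
        · exact Or.inr (Or.inl ⟨h, fun w q => hidx h' w q⟩)
        · exact Or.inr (Or.inr (Or.inl ⟨h, fun w q => hidx h' w q⟩))
        · exact Or.inr (Or.inr (Or.inr ⟨h, h'⟩))
      · obtain ⟨δ, h1, h2, -, h3⟩ := half_factor (F i) (hF := hF i) (stb G σ i) hst B hB
        refine ⟨δ, fun p hp => ?_, h3 ?_ hneg hflat⟩
        · have h4 := h2 p hp
          linarith
        · rcases h with h | ⟨h, -⟩
          · exact h
          · exact absurd h hflat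
      · refine ⟨δ, fun p hp => by linarith [h' p hp], ?_⟩
        rcases h with h | ⟨h, -⟩
        · exact h.pos
        · exact absurd h hflat
    obtain ⟨δ, h1, h2⟩ := hδ
    obtain ⟨x, b, b', h4, h5, h6, h7, h8, h9, h10, h11⟩ :=
      data48 (F i) (hF := hF i) (stb G σ i) hst N (by omega) B hB hneg hflat δ h1 h2 m (by
        rcases hm with hm | hm
        · exact Or.inr hm
        · exact Or.inl hm.1)
    exact ⟨x, b, b', h4, h5, h6, h7, h8, h9, h10, fun _ => h11⟩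

end

end Q36.PT
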