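import Pool.Agent.Q36.PT.Eq
import Pool.Agent.W303.PG.Kod

/-! Sections of a fixed weight on the quotient. -/

set_option autoImplicit false
set_option linter.overlappingInstances false
set_option linter.unusedSectionVars false

universe u v

open Polynomial FF IntermediateField

namespace Q36.PT

open Pool.Agent.W603.LV Pool.Agent.W619.PQ Pool.Agent.W619.PL Pool.Agent.W619.TW
  Pool.Agent.W619.X Pool.Agent.W619.Y Pool.Agent.W303.PG

/-- The map given by sections of `m (K + D)` has an image of dimension at least `h`: there are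
`h + 1` sections of `m (K + D)` whose ratios to the first one are algebraically independent. -/
def ImageGe (k : Type*) (K : Type*) [Field k] [Field K] [Algebra k K] (n : ℕ)
    (Bd : Place k K → Prop) (m h : ℕ) : Prop :=
  ∃ ω : Fin (h + 1) → (Fin n → Derivation k K K) → K,
    (∀ l, IsSec k K n Bd {1} m 0 (ω l)) ∧
    ∃ D, (∀ l, ω l D ≠ 0) ∧ AlgebraicIndependent k (fun l : Fin h => ω l.succ D / ω 0 D)

section

variable {k : Type v} {L : Type u} [Field k] [CharZero k] [IsAlgClosed k] [Field L] [Algebra k L]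

/-- The pluricanonical forms on the quotient. -/
theorem form_exists (n : ℕ) (G : Subgroup (L ≃ₐ[k] L)) [Finite G] (X : Fin n → L)
    (hnK : Algebra.trdeg k (fixedField G) = n)
    (τ : G → Equiv.Perm (Fin n)) (hτ : ∀ (g : G) i, (g : L ≃ₐ[k] L) (X i) = X (τ g i))
    (m : ℕ) (hm : Even m) (B : L) (hB : ∀ g : G, (g : L ≃ₐ[k] L) B = B) :
    ∃ ω : (Fin n → Derivation k (fixedField G) (fixedField G)) → fixedField G,
      IsPluriForm k (fixedField G) n m ω ∧
      ∀ (D : Fin n → Derivation k (fixedField G) (fixedField G)) (D' : Fin n → Derivation k L L),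
        (∀ j (f : fixedField G), D' j (f : L) = (D j f : L)) →
        ((ω D : fixedField G) : L) = B * (Matrix.of fun i j => D' j (X i)).det ^ m := by
  classical
  have halgK := alg_fixed G
  choose ext hext hext2 hext3 using pEXT k (fixedField G) L n hnK
  have hfix : ∀ (g : G) (f : fixedField G), (g : L ≃ₐ[k] L) (algebraMap (fixedField G) L f) =
      algebraMap (fixedField G) L f := fun g f => f.2 g
  let V : (Fin n → Derivation k (fixedField G) (fixedField G)) → L := fun D =>
    B * (Matrix.of fun i j => ext (D j) (X i)).det ^ m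
  have hVg : ∀ D (g : G), (g : L ≃ₐ[k] L) (V D) = V D := by
    intro D g
    change (g : L ≃ₐ[k] L) (B * (Matrix.of fun i j => ext (D j) (X i)).det ^ m) = _
    rw [map_mul, hB g, map_pow]
    congr 1
    have e1 : (g : L ≃ₐ[k] L) (Matrix.of fun i j => ext (D j) (X i)).det =
        ((Matrix.of fun i j => ext (D j) (X i)).submatrix (τ g) id).det := by
      rw [← AlgEquiv.coe_toAlgHom, AlgHom.map_det]
      congr 1
      ext i j
      simp only [AlgHom.mapMatrix_apply, Matrix.map_apply, Matrix.of_apply,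
        Matrix.submatrix_apply, id]
      change (g : L ≃ₐ[k] L) (ext (D j) (X i)) = _
      rw [hext3 (D j) (g : L ≃ₐ[k] L) (hfix g), hτ]
    rw [e1, Matrix.det_permute, mul_pow]
    obtain ⟨r, rfl⟩ := hm
    have e2 : (((Equiv.Perm.sign (τ g) : ℤˣ) : ℤ) : L) ^ (r + r) = 1 := by
      rw [← mul_two, mul_comm, pow_mul, ← Int.cast_pow]
      have : (((Equiv.Perm.sign (τ g) : ℤˣ) : ℤ)) ^ 2 = 1 := by
        rw [← Units.val_pow_eq_pow_val, Int.units_sq, Units.val_one]
      rw [this, Int.cast_one, one_pow]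
    rw [e2, one_mul]
  refine ⟨fun D => ⟨V D, fun g => hVg D g⟩, ?_, ?_⟩
  · intro A D
    apply Subtype.ext
    have e1 : ∀ j, ext (∑ l, A j l • D l) = ∑ l, (algebraMap (fixedField G) L (A j l)) •
        ext (D l) := by
      intro j
      symm
      apply hext2
      intro f
      rw [Pool.Agent.W721.PG.EFF2.der_sum, Pool.Agent.W721.PG.EFF2.der_sum, map_sum]
      refine Finset.sum_congr rfl fun l _ => ?_
      rw [hext, map_mul]
    have e2 : (Matrix.of fun i j => ext (∑ l, A j l • D l) (X i)) =
        (Matrix.of fun i j => ext (D j) (X i)) *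
          (A.map (algebraMap (fixedField G) L)).transpose := by
      ext i j
      simp only [Matrix.of_apply, Matrix.mul_apply, Matrix.transpose_apply, Matrix.map_apply]
      rw [e1, Pool.Agent.W721.PG.EFF2.der_sum]
      exact Finset.sum_congr rfl fun l _ => mul_comm _ _
    have e3 : (A.map (algebraMap (fixedField G) L)).det = algebraMap (fixedField G) L A.det := by
      rw [RingHom.map_det]
      rfl
    change B * (Matrix.of fun i j => ext (∑ l, A j l • D l) (X i)).det ^ m =
      algebraMap (fixedField G) L (A.det ^ m * ⟨V D, fun g => hVg D g⟩)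
    rw [e2, Matrix.det_mul, Matrix.det_transpose, e3, mul_pow, map_mul, map_pow]
    change _ = _ * (B * (Matrix.of fun i j => ext (D j) (X i)).det ^ m)
    ring
  · intro D D' hD'
    have e1 : ∀ j, D' j = ext (D j) := fun j => hext2 (D j) (D' j) (hD' j)
    change B * (Matrix.of fun i j => ext (D j) (X i)).det ^ m = _
    simp only [e1]

/-- the elementary symmetric functions of the ratios: sums of products of good forms -/
theorem esymm_sum {n : ℕ} (H : Set (Fin n)) [Fintype H] (f c c' : Fin n → L)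
    (hc0 : ∀ i, c i ≠ 0) (hf : ∀ i ∈ H, f i = c' i / c i) (l : ℕ) :
    ∃ (ι : Type) (s : Finset ι) (T : ι → Finset (Fin n)),
      (∏ i, c i) * MvPolynomial.aeval (fun i : H => f i) (MvPolynomial.esymm H k l) =
      ∑ t ∈ s, ∏ i, (if i ∈ T t then c' i else c i) := by
  classical
  have e1 : MvPolynomial.aeval (fun i : H => f i) (MvPolynomial.esymm H k l) =
      ∑ t ∈ Finset.powersetCard l (Finset.univ : Finset H), ∏ i ∈ t, f i := by
    simp [MvPolynomial.esymm]
  refine ⟨Finset H, Finset.powersetCard l Finset.univ,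
    fun t => t.map (Function.Embedding.subtype _), ?_⟩
  rw [e1, Finset.mul_sum]
  refine Finset.sum_congr rfl fun t _ => ?_
  have hTH : ∀ i ∈ t.map (Function.Embedding.subtype _), i ∈ H := by
    intro i hi
    obtain ⟨j, _, rfl⟩ := Finset.mem_map.1 hi
    exact j.2
  have e2 : ∏ i ∈ t, f i = ∏ i ∈ t.map (Function.Embedding.subtype _), f i := by
    rw [Finset.prod_map]; rfl
  have e3 : ∏ i ∈ t.map (Function.Embedding.subtype _), f i =
      ∏ i, (if i ∈ t.map (Function.Embedding.subtype _) then f i else 1) := by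
    rw [Finset.prod_ite_mem, Finset.univ_inter]
  rw [e2, e3, ← Finset.prod_mul_distrib]
  refine Finset.prod_congr rfl fun i _ => ?_
  by_cases hi : i ∈ t.map (Function.Embedding.subtype _)
  · simp only [if_pos hi]
    rw [hf i (hTH i hi), mul_div_cancel₀ _ (hc0 i)]
  · simp only [if_neg hi, mul_one]

/-- The image of the pluricanonical map. -/
theorem image_ge (n : ℕ) (F : Fin n → IntermediateField k L) [hF : ∀ i, IsFF k (F i)]
    (hn : Algebra.trdeg k L = (0 + n : ℕ)) (halg : Algebra.IsAlgebraic ↥(⨆ i, F i) L)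
    (G : Subgroup (L ≃ₐ[k] L)) [Finite G] (σ : G →* Equiv.Perm (Fin n))
    (hσ : ∀ (g : G) i, ∀ z ∈ F i, (g : L ≃ₐ[k] L) z ∈ F (σ g i))
    (Bd : Place k (fixedField G) → Prop) (N m : ℕ) (hN : 2 ≤ N) (hfree : FreeIn N G σ F)
    (hme : Even m) (H : Set (Fin n)) (x c c' : Fin n → L)
    (hH : ∀ (g : G) i, i ∈ H → σ g i ∈ H)
    (hxQ : ∀ i, x i ∈ Quo G σ F i) (hxt : ∀ i, Transcendental k (x i))
    (hxg : ∀ (g : G) i, (g : L ≃ₐ[k] L) (x i) = x (σ g i))
    (hcQ : ∀ i, c i ∈ Quo G σ F i) (hc0 : ∀ i, c i ≠ 0) (hcQ' : ∀ i, c' i ∈ Quo G σ F i)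
    (hc0' : ∀ i, c' i ≠ 0)
    (hcg : ∀ (g : G) i, (g : L ≃ₐ[k] L) (c i) = c (σ g i))
    (hcg' : ∀ (g : G) i, (g : L ≃ₐ[k] L) (c' i) = c' (σ g i))
    (hgood : ∀ i, GoodBd Bd (Quo G σ F i) N m (x i) (c i))
    (hgood' : ∀ i, GoodBd Bd (Quo G σ F i) N m (x i) (c' i))
    (htr : ∀ i ∈ H, Transcendental k (c' i / c i)) :
    ImageGe k (fixedField G) (0 + n) Bd m H.ncard := by
  classical
  have hn' : Algebra.trdeg k L = n := by rw [hn, zero_add]
  -- bases
  have hxb : IsTranscendenceBasis k x :=
    Pool.Agent.W619.X.basis_of_alg F halg hn' (fun i => ⟨x i, (hxQ i).1⟩)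
      (fun i => trans_sub (F i) (hxQ i).1 (hxt i))
  let f : Fin n → L := fun i => if i ∈ H then c' i / c i else x i
  have hfH : ∀ i ∈ H, f i = c' i / c i := fun i hi => if_pos hi
  have hfF : ∀ i, f i ∈ F i := by
    intro i
    by_cases hi : i ∈ H
    · rw [hfH i hi]; exact div_mem (hcQ' i).1 (hcQ i).1
    · have : f i = x i := if_neg hi
      rw [this]; exact (hxQ i).1
  have hft : ∀ i, Transcendental k (f i) := by
    intro i
    by_cases hi : i ∈ H
    · rw [hfH i hi]; exact htr i hi
    · have : f i = x i := if_neg hi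
      rw [this]; exact hxt i
  have hfb : IsTranscendenceBasis k f :=
    Pool.Agent.W619.X.basis_of_alg F halg hn' (fun i => ⟨f i, hfF i⟩)
      (fun i => trans_sub (F i) (hfF i) (hft i))
  have hHiff : ∀ (g : G) i, σ g i ∈ H ↔ i ∈ H := by
    intro g i
    constructor
    · intro h
      have := hH g⁻¹ _ h
      rwa [← Equiv.Perm.mul_apply, ← map_mul, inv_mul_cancel, map_one] at this
    · exact hH g i
  have hcard : H.ncard = Fintype.card H := by
    rw [← Nat.card_coe_set_eq, Nat.card_eq_fintype_card]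
  generalize hadef : H.ncard = a at hcard
  let fH : H → L := fun i => f i
  have hfHi : AlgebraicIndependent k fH := hfb.1.comp _ Subtype.val_injective
  let uu : ℕ → L := fun l => MvPolynomial.aeval fH (MvPolynomial.esymm H k l)
  have hu : AlgebraicIndependent k (fun l : Fin a => uu (l + 1)) := esymm_indep fH hfHi hcard.le
  have hu0 : uu 0 = 1 := by
    change MvPolynomial.aeval fH (MvPolynomial.esymm H k 0) = 1
    rw [MvPolynomial.esymm_zero, map_one]
  have hune : ∀ l : Fin (a + 1), uu l ≠ 0 := by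
    intro l
    refine Fin.cases ?_ (fun l => ?_) l
    · change uu 0 ≠ 0
      rw [hu0]; exact one_ne_zero
    · intro h0
      have h1 : Transcendental k (uu (l + 1)) := hu.transcendental l
      apply h1
      change uu (l + 1) = 0 at h0
      rw [h0]
      exact isAlgebraic_zero
  have hug : ∀ (g : G) l, (g : L ≃ₐ[k] L) (uu l) = uu l := by
    intro g l
    let τ : Equiv.Perm H :=
      { toFun := fun i => ⟨σ g i, (hHiff g i).2 i.2⟩
        invFun := fun i => ⟨σ g⁻¹ i, (hHiff g⁻¹ i).2 i.2⟩
        left_inv := fun i => by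
          apply Subtype.ext
          change σ g⁻¹ (σ g i) = i
          rw [← Equiv.Perm.mul_apply, ← map_mul, inv_mul_cancel, map_one]; rfl
        right_inv := fun i => by
          apply Subtype.ext
          change σ g (σ g⁻¹ i) = i
          rw [← Equiv.Perm.mul_apply, ← map_mul, mul_inv_cancel, map_one]; rfl }
    refine esymm_inv fH (g : L ≃ₐ[k] L) τ (fun i => ?_) _
    change (g : L ≃ₐ[k] L) (f i) = f (σ g i)
    rw [hfH i i.2, hfH _ ((hHiff g i).2 i.2), map_div₀, hcg, hcg']
  let C : L := ∏ i, c i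
  have hC0 : C ≠ 0 := Finset.prod_ne_zero_iff.2 fun i _ => hc0 i
  have hCg : ∀ g : G, (g : L ≃ₐ[k] L) C = C := by
    intro g
    change (g : L ≃ₐ[k] L) (∏ i, c i) = ∏ i, c i
    rw [map_prod]
    simp only [hcg]
    exact Equiv.prod_comp (σ g) c
  have hBg : ∀ l (g : G), (g : L ≃ₐ[k] L) (C * uu l) = C * uu l := by
    intro l g
    rw [map_mul, hCg, hug]
  -- the coordinates
  let y : Fin 0 → L := Fin.elim0
  let X : Fin (0 + n) → L := Fin.append y x
  have hXx : X = x ∘ (finCongr (Nat.zero_add n)) := Fin.append_left_nil y x rfl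
  let τ : G → Equiv.Perm (Fin (0 + n)) := fun g =>
    ((finCongr (Nat.zero_add n)).trans (σ g)).trans (finCongr (Nat.zero_add n)).symm
  have hτ : ∀ (g : G) i, (g : L ≃ₐ[k] L) (X i) = X (τ g i) := by
    intro g i
    rw [hXx]
    simp only [Function.comp_apply, τ, Equiv.trans_apply, Equiv.apply_symm_apply]
    exact hxg g _
  have hXb : IsTranscendenceBasis k X := by
    rw [hXx]
    exact (isTranscendenceBasis_equiv (finCongr (Nat.zero_add n))).2 hxb
  obtain ⟨hnK, D0, D0', hD0, hdet⟩ := exists_der pEXT (0 + n) hn G X hXb τ hτ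
  choose ω hω1 hω2 using fun l : Fin (a + 1) =>
    form_exists (0 + n) G X hnK τ hτ m hme (C * uu l) (hBg l)
  refine ⟨ω, fun l => ⟨hω1 l, ?_, ?_⟩, D0, fun l h0 => ?_, ?_⟩
  · intro v hv hb D hD
    apply Pool.Agent.W303.PG.dom_of_reg
    obtain ⟨w, e, hwv, hreg⟩ := pREG3 k L 0 n F G σ hn hσ N hN hfree x hxQ hxt hxg v hv
    have halgK := alg_fixed G
    choose D' hD' hD'' using fun j => pEXT k (fixedField G) L (0 + n) hnK (D j)
    rw [← hwv.reg]
    change Ge w 0 ((ω l D : fixedField G) : L)
    rw [hω2 l D D' hD']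
    obtain ⟨ι, s, T, hT⟩ := esymm_sum (k := k) H f c c' hc0 hfH (l : ℕ)
    have e1 : C * uu l = ∑ t ∈ s, ∏ i, (if i ∈ T t then c' i else c i) := hT
    rw [e1, Finset.sum_mul]
    refine Ge.sum _ _ fun t _ => ?_
    have h1 := (hreg m (fun i => if i ∈ T t then c' i else c i) (fun i => by
        by_cases hi : i ∈ T t
        · simp only [if_pos hi]; exact hcQ' i
        · simp only [if_neg hi]; exact hcQ i) (fun i => by
        by_cases hi : i ∈ T t
        · simp only [if_pos hi]; exact hc0' i
        · simp only [if_neg hi]; exact hc0 i) y 1 (fun w' _ => ?_) D D' hD').1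
      (fun i w' e' hw' => ?_) hD 1
    · simpa using h1
    · exact ⟨1, Fin.elim0, fun c => c.elim0, fun _ l => l.elim0, by
        rw [Matrix.det_one, one_pow, one_mul]
        exact Or.inr (by rw [w'.ord_one])⟩
    · by_cases hi : i ∈ T t
      · simp only [if_pos hi]; exact ((hgood' i) v w' e' hw').1 hb
      · simp only [if_neg hi]; exact ((hgood i) v w' e' hw').1 hb
  · intro v hv hb D hD
    apply Pool.Agent.W303.PG.dom_of_reg
    obtain ⟨w, e, hwv, hreg⟩ := pREG3 k L 0 n F G σ hn hσ N hN hfree x hxQ hxt hxg v hv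
    have halgK := alg_fixed G
    choose D' hD' hD'' using fun j => pEXT k (fixedField G) L (0 + n) hnK (D j)
    rw [← hwv.reg]
    change Ge w 0 ((ω l D : fixedField G) : L)
    rw [hω2 l D D' hD']
    obtain ⟨ι, s, T, hT⟩ := esymm_sum (k := k) H f c c' hc0 hfH (l : ℕ)
    have e1 : C * uu l = ∑ t ∈ s, ∏ i, (if i ∈ T t then c' i else c i) := hT
    rw [e1, Finset.sum_mul]
    refine Ge.sum _ _ fun t _ => ?_
    have h1 := (hreg m (fun i => if i ∈ T t then c' i else c i) (fun i => by
        by_cases hi : i ∈ T t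
        · simp only [if_pos hi]; exact hcQ' i
        · simp only [if_neg hi]; exact hcQ i) (fun i => by
        by_cases hi : i ∈ T t
        · simp only [if_pos hi]; exact hc0' i
        · simp only [if_neg hi]; exact hc0 i) y 1 (fun w' _ => ?_) D D' hD').2
      (fun i w' e' hw' => ?_) hD 1
    · simpa using h1
    · exact ⟨1, Fin.elim0, fun c => c.elim0, fun _ l => l.elim0, by
        rw [Matrix.det_one, one_pow, one_mul]
        exact Or.inr (by rw [w'.ord_one])⟩
    · by_cases hi : i ∈ T t
      · simp only [if_pos hi]; exact ((hgood' i) v w' e' hw').2 hb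
      · simp only [if_neg hi]; exact ((hgood i) v w' e' hw').2 hb
  · have h1 : ((ω l D0 : fixedField G) : L) = 0 := congrArg (fun z : fixedField G => (z : L)) h0
    rw [hω2 l D0 D0' hD0] at h1
    exact mul_ne_zero (mul_ne_zero hC0 (hune l)) (pow_ne_zero _ hdet) h1
  · have h7 : AlgebraicIndependent k (fun l : Fin a =>
        ((fixedField G).val : fixedField G →ₐ[k] L) (ω l.succ D0 / ω 0 D0)) := by
      have e1 : (fun l : Fin a =>
          ((fixedField G).val : fixedField G →ₐ[k] L) (ω l.succ D0 / ω 0 D0)) =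
          fun l : Fin a => uu (l + 1) := by
        funext l
        rw [map_div₀]
        change ((ω l.succ D0 : fixedField G) : L) / ((ω 0 D0 : fixedField G) : L) = _
        rw [hω2 l.succ D0 D0' hD0, hω2 0 D0 D0' hD0, mul_div_mul_right _ _ (pow_ne_zero _ hdet)]
        have e2 : uu ((0 : Fin (a + 1)) : ℕ) = 1 := hu0
        rw [e2, mul_one, mul_div_cancel_left₀ _ hC0]
        rfl
      rw [e1]
      exact hu
    exact AlgebraicIndependent.of_comp ((fixedField G).val : fixedField G →ₐ[k] L) h7

end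

end Q36.PT
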